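import Pool.Agent.Q187.Cube.Tab

/-!
# Classification: soundness of the search
-/

set_option autoImplicit false

namespace Q187.Cube

/-- sign condition for the first `n` coordinates -/
def Mt (w : ℕ → V) (code n : ℕ) : Prop :=
  ∀ m < n, 0 < (bs (code.testBit m) : ℝ) * pc w m

/-- normal form -/
structure NG (w : ℕ → V) : Prop where
  h0 : ∀ j l, 0 < j → j < l → l < 7 → 0 < D3 (w 0) (w j) (w l)
  h1 : ∀ n < 35, pc w n ≠ 0

theorem btw (w : ℕ → V) (hw : NG w) {a b c d : ℕ} (ha : 0 < a) (hab : a < b) (hbc : b < c)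
    (hcd : c < d) (hd : d < 7) :
    (∃ α β γ : ℝ, 0 < α ∧ 0 < β ∧ 0 < γ ∧
      α * pc w (ix a b c) + γ * pc w (ix a c d) = β * pc w (ix a b d)) ∧
    (∃ α β γ : ℝ, 0 < α ∧ 0 < β ∧ 0 < γ ∧
      α * pc w (ix a b c) + γ * pc w (ix b c d) = β * pc w (ix a b d)) ∧
    (∃ α β γ : ℝ, 0 < α ∧ 0 < β ∧ 0 < γ ∧
      α * pc w (ix a b c) + γ * pc w (ix b c d) = β * pc w (ix a c d)) ∧
    (∃ α β γ : ℝ, 0 < α ∧ 0 < β ∧ 0 < γ ∧
      α * pc w (ix a b d) + γ * pc w (ix b c d) = β * pc w (ix a c d)) := by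
  rw [pc_ix w hab hbc (by omega), pc_ix w hab (show b < d by omega) hd,
    pc_ix w (show a < c by omega) hcd hd, pc_ix w hbc hcd hd]
  have h0ab := hw.h0 a b ha hab (by omega)
  have h0ac := hw.h0 a c ha (by omega) (by omega)
  have h0ad := hw.h0 a d ha (by omega) (by omega)
  have h0bc := hw.h0 b c (by omega) (by omega) (by omega)
  have h0bd := hw.h0 b d (by omega) (by omega) (by omega)
  have h0cd := hw.h0 c d (by omega) (by omega) (by omega)
  refine ⟨⟨_, _, _, h0ad, h0ac, h0ab, ?_⟩, ⟨_, _, _, h0bd, h0bc, h0ab, ?_⟩,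
    ⟨_, _, _, h0cd, h0bc, h0ac, ?_⟩, ⟨_, _, _, h0cd, h0bd, h0ad, ?_⟩⟩ <;>
  · unfold D3; ring

/-- the four constraints of a quadruple -/
def con4 (t : ℕ × ℕ × ℕ × ℕ) : List (ℕ × ℕ × ℕ) :=
  let a := t.1; let b := t.2.1; let c := t.2.2.1; let d := t.2.2.2
  [(ix a b c, ix a b d, ix a c d), (ix a b c, ix a b d, ix b c d),
    (ix a b c, ix a c d, ix b c d), (ix a b d, ix a c d, ix b c d)]

/-- all four-element subsets -/
def c4 (l : List ℕ) : List (ℕ × ℕ × ℕ × ℕ) :=
  l.flatMap fun j => l.flatMap fun k => l.flatMap fun m => l.filterMap fun n =>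
    if j < k ∧ k < m ∧ m < n then some (j, k, m, n) else none

/-- all constraints -/
def allc : List (ℕ × ℕ × ℕ) := (c4 [1, 2, 3, 4, 5, 6]).flatMap con4

theorem allc_ok (w : ℕ → V) (hw : NG w) (t : ℕ × ℕ × ℕ) (ht : t ∈ allc) :
    ∃ α β γ : ℝ, 0 < α ∧ 0 < β ∧ 0 < γ ∧ α * pc w t.1 + γ * pc w t.2.2 = β * pc w t.2.1 := by
  unfold allc at ht
  rw [List.mem_flatMap] at ht
  obtain ⟨⟨a, b, c, d⟩, h1, h2⟩ := ht
  have hall : (c4 [1, 2, 3, 4, 5, 6]).all (fun t => decide (0 < t.1) && decide (t.1 < t.2.1) &&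
    decide (t.2.1 < t.2.2.1) && decide (t.2.2.1 < t.2.2.2) && decide (t.2.2.2 < 7)) = true := by
    decide +kernel
  rw [List.all_eq_true] at hall
  have h3 := hall _ h1
  simp only [Bool.and_eq_true, decide_eq_true_eq] at h3
  obtain ⟨⟨⟨⟨ha, hab⟩, hbc⟩, hcd⟩, hd⟩ := h3
  obtain ⟨k1, k2, k3, k4⟩ := btw w hw ha hab hbc hcd hd
  simp only [con4, List.mem_cons, List.not_mem_nil, or_false] at h2
  rcases h2 with rfl | rfl | rfl | rfl
  · exact k1
  · exact k2
  · exact k3
  · exact k4

theorem tab_none : ∀ n < 35, tab.getD n none = none → (trip n).1 = 0 := by decide +kernel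

theorem tab_some : ∀ n < 35, ((tab.getD n none).getD []).all
    (fun p => decide (p.1 ≠ p.2) && decide (p.1 < n) && decide (p.2 < n) &&
      allc.contains (p.1, p.2, n)) = true := by
  decide +kernel

theorem pc_pos (w : ℕ → V) (hw : NG w) {n : ℕ} (hn : n < 35) (h : (trip n).1 = 0) :
    0 < pc w n := by
  obtain ⟨h1, h2, h3, _⟩ := ix_trip n hn
  unfold pc
  rw [h] at h1 ⊢
  exact hw.h0 _ _ h1 h2 h3

theorem bs_pos {s : Bool} {x : ℝ} (h : 0 < (bs s : ℝ) * x) (h' : 0 < (bs (!s) : ℝ) * x) :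
    False := by
  cases s <;> simp [bs] at h h' <;> linarith

theorem testBit_pw {i j : ℕ} (h : i ≠ j) (code : ℕ)
    (h1 : Nat.land code (Nat.add (2 ^ i) (2 ^ j)) = 2 ^ j) :
    code.testBit j = true ∧ code.testBit i = false := by
  change code &&& (2 ^ i + 2 ^ j) = 2 ^ j at h1
  have hj : (2 ^ i + 2 ^ j).testBit j = true := by
    rw [add_comm, Nat.testBit_two_pow_add_eq, Nat.testBit_two_pow]
    simp [h]
  have hi : (2 ^ i + 2 ^ j).testBit i = true := by
    rw [Nat.testBit_two_pow_add_eq, Nat.testBit_two_pow]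
    simp [h.symm]
  constructor
  · have := congrArg (fun m => Nat.testBit m j) h1
    simp only [Nat.testBit_land, hj, Bool.and_true, Nat.testBit_two_pow_self] at this
    exact this
  · have := congrArg (fun m => Nat.testBit m i) h1
    simp only [Nat.testBit_land, hi, Bool.and_true, Nat.testBit_two_pow] at this
    rw [this]
    simp [h.symm]

theorem pr_true (s : Bool) (code : ℕ) (b : List (ℕ × ℕ)) (hb : ∀ p ∈ b, p.1 ≠ p.2)
    (h : pr s code (pw b) = true) :
    ∃ p ∈ b, code.testBit p.1 = s ∧ code.testBit p.2 = !s := by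
  induction b with
  | nil => simp [pw, pr] at h
  | cons t b ih =>
    obtain ⟨i, j⟩ := t
    simp only [pw, pr] at h
    have hij : i ≠ j := hb (i, j) List.mem_cons_self
    cases h1 : Nat.beq (Nat.land code (Nat.add (Nat.pow 2 i) (Nat.pow 2 j)))
        (cond s (Nat.pow 2 i) (Nat.pow 2 j)) with
    | true =>
      rw [Nat.beq_eq] at h1
      refine ⟨(i, j), List.mem_cons_self, ?_⟩
      cases s with
      | false =>
        have h2 := testBit_pw hij code h1
        exact ⟨h2.2, h2.1⟩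
      | true =>
        have h2 := testBit_pw hij.symm code (by
          rw [show Nat.add (2 ^ j) (2 ^ i) = Nat.add (2 ^ i) (2 ^ j) from Nat.add_comm _ _]
          exact h1)
        exact ⟨h2.1, h2.2⟩
    | false =>
      rw [h1] at h
      obtain ⟨p, hp, h2⟩ := ih (fun p hp => hb p (List.mem_cons_of_mem _ hp)) h
      exact ⟨p, List.mem_cons_of_mem _ hp, h2⟩

theorem pr_false (w : ℕ → V) (hw : NG w) {n : ℕ} (hn : n < 35) {b : List (ℕ × ℕ)}
    (hb : tab.getD n none = some b) {code : ℕ} (hm : Mt w code n) (s : Bool)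
    (hs : 0 < (bs s : ℝ) * pc w n) : pr s code (pw b) = false := by
  by_contra hc
  rw [Bool.not_eq_false] at hc
  have h2 := tab_some n hn
  rw [hb, Option.getD_some, List.all_eq_true] at h2
  have hne : ∀ p ∈ b, p.1 ≠ p.2 := by
    intro p hp
    have h3 := h2 p hp
    simp only [Bool.and_eq_true, decide_eq_true_eq] at h3
    exact h3.1.1.1
  obtain ⟨p, hp, h1, h7⟩ := pr_true s code b hne hc
  have h3 := h2 p hp
  simp only [Bool.and_eq_true, decide_eq_true_eq, List.contains_iff_mem] at h3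
  obtain ⟨⟨⟨_, h4⟩, h5⟩, h6⟩ := h3
  obtain ⟨α, β, γ, hα, hβ, hγ, e⟩ := allc_ok w hw _ h6
  simp only at e
  have m1 := hm p.1 h4
  have m2 := hm p.2 h5
  rw [h1] at m1
  rw [h7] at m2
  apply bs_pos (s := s) (x := β * pc w p.2)
  · rw [← e]
    have := mul_pos hα m1
    have := mul_pos hγ hs
    nlinarith
  · have := mul_pos hβ m2
    nlinarith

/-- a leaf has been found -/
def Good (w : ℕ → V) : Prop := ∃ d code : ℕ, leafOK d code = true ∧ Mt w code 35

theorem go_sound (w : ℕ → V) (hw : NG w) : ∀ (T : List (Option (List (ℕ × ℕ)))) (n code : ℕ)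
    (L L' : List ℕ), tab.drop n = T → n + T.length = 35 → code < 2 ^ n → Mt w code n →
    go (T.map (Option.map pw)) (2 ^ n) code L = some L' → Good w := by
  intro T
  induction T with
  | nil =>
    intro n code L L' _ h2 _ hm hg
    simp only [List.length_nil, add_zero] at h2
    subst h2
    cases L with
    | nil => simp [go] at hg
    | cons d L =>
      simp only [List.map_nil, go] at hg
      cases h : leafOK d code with
      | true => exact ⟨d, code, h, hm⟩
      | false => rw [h] at hg; simp at hg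
  | cons o T ih =>
    intro n code L L' h1 h2 h3 hm hg
    simp only [List.length_cons] at h2
    have hn : n < 35 := by omega
    have h1' : tab.drop (n + 1) = T := by
      rw [← List.drop_drop, h1]
      rfl
    have ho : tab.getD n none = o := by
      have : (tab.drop n).getD 0 none = o := by rw [h1]; rfl
      rw [← this]
      simp [List.getD, List.getElem?_drop]
    have hbit : code.testBit n = false := Nat.testBit_lt_two_pow h3
    have hlt : code < 2 ^ (n + 1) := lt_trans h3 (Nat.pow_lt_pow_right (by norm_num) (by omega))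
    have h2n : Nat.mul 2 (2 ^ n) = 2 ^ (n + 1) := by
      change 2 * 2 ^ n = _
      rw [pow_succ]; ring
    cases o with
    | none =>
      simp only [List.map_cons, Option.map_none, go] at hg
      rw [h2n] at hg
      refine ih (n + 1) code L L' h1' (by omega) hlt ?_ hg
      intro m hmn
      rcases Nat.lt_succ_iff_lt_or_eq.1 hmn with h | h
      · exact hm m h
      · subst h
        rw [hbit]
        simp only [bs_false]
        push_cast
        rw [one_mul]
        exact pc_pos w hw hn (tab_none m hn ho)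
    | some b =>
      simp only [List.map_cons, Option.map_some, go] at hg
      rw [h2n] at hg
      rcases lt_or_gt_of_ne (hw.h1 n hn) with hlt0 | hgt0
      · -- negative
        have hp := pr_false w hw hn ho hm true (by simp [bs]; linarith)
        rw [hp] at hg
        split at hg
        · exact absurd hg (by simp)
        · rename_i L1 _
          refine ih (n + 1) (2 ^ n + code) L1 L' h1' (by omega) (by rw [pow_succ]; omega) ?_ hg
          intro m hmn
          rcases Nat.lt_succ_iff_lt_or_eq.1 hmn with h | h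
          · rw [Nat.testBit_two_pow_add_gt h]
            exact hm m h
          · subst h
            rw [Nat.testBit_two_pow_add_eq, hbit]
            simp [bs]
            linarith
      · have hp := pr_false w hw hn ho hm false (by simp [bs]; linarith)
        rw [hp] at hg
        simp only at hg
        split at hg
        · exact absurd hg (by simp)
        · rename_i L1 h
          refine ih (n + 1) code L L1 h1' (by omega) hlt ?_ h
          intro m hmn
          rcases Nat.lt_succ_iff_lt_or_eq.1 hmn with h | h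
          · exact hm m h
          · subst h
            rw [hbit]
            simp only [bs_false]
            push_cast
            linarith

theorem good (w : ℕ → V) (hw : NG w) : Good w := by
  have h := go_ok
  rw [← tabF_eq] at h
  exact go_sound w hw tab 0 0 _ [] rfl rfl (by norm_num) (fun m hm => absurd hm (by omega)) h

/-! ## leaves -/

theorem lchk_tst (d code e : ℕ) (l : List (ℕ × ℕ × ℕ)) (n : ℕ) (h : lchk d code e l n = true)
    (k : ℕ) (hk : k < l.length) : tst d code e (l.getD k (0, 0, 0)).1 (l.getD k (0, 0, 0)).2.1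
      (l.getD k (0, 0, 0)).2.2 (n + k) = true := by
  induction l generalizing n k with
  | nil => simp at hk
  | cons t l ih =>
    obtain ⟨a, b, c⟩ := t
    simp only [lchk] at h
    rw [Bool.and_eq_true] at h
    cases k with
    | zero => exact h.1
    | succ k =>
      have := ih (n + 1) h.2 k (by simpa using hk)
      simp only [List.getD_cons_succ]
      rw [show n + (k + 1) = n + 1 + k by ring]
      exact this

theorem sg3_lt_aux : ∀ a < 7, ∀ b < 7, ∀ c < 7, a = b ∨ a = c ∨ b = c ∨ ((sg3 a b c).2 < 35 ∧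
    tte a b c = (sg3 a b c).2 + 64 * (cond (sg3 a b c).1 1 0)) := by
  decide +kernel

theorem sg3_lt (a : ℕ) (ha : a < 7) (b : ℕ) (hb : b < 7) (c : ℕ) (hc : c < 7) (h1 : a ≠ b)
    (h2 : a ≠ c) (h3 : b ≠ c) : (sg3 a b c).2 < 35 := by
  rcases sg3_lt_aux a ha b hb c hc with h | h | h | h
  · exact absurd h h1
  · exact absurd h h2
  · exact absurd h h3
  · exact h.1

theorem tte_eq (a : ℕ) (ha : a < 7) (b : ℕ) (hb : b < 7) (c : ℕ) (hc : c < 7) (h1 : a ≠ b)
    (h2 : a ≠ c) (h3 : b ≠ c) : tte a b c = (sg3 a b c).2 + 64 * (cond (sg3 a b c).1 1 0) := by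
  rcases sg3_lt_aux a ha b hb c hc with h | h | h | h
  · exact absurd h h1
  · exact absurd h h2
  · exact absurd h h3
  · exact h.2

theorem bs_sq (a : Bool) : (bs a : ℝ) * bs a = 1 := by cases a <;> simp [bs]

/-- sign of a number -/
theorem pw_shift (x m : ℕ) : ((-1 : ℝ)) ^ (Nat.shiftRight x m) = bs (x.testBit m) := by
  have h : Nat.shiftRight x m = x / 2 ^ m := Nat.shiftRight_eq_div_pow x m
  rw [h, Nat.testBit_eq_decide_div_mod_eq]
  rcases Nat.mod_two_eq_zero_or_one (x / 2 ^ m) with h1 | h1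
  · rw [h1, Even.neg_one_pow (Nat.even_iff.2 h1)]
    simp [bs]
  · rw [h1, Odd.neg_one_pow (Nat.odd_iff.2 h1)]
    simp [bs]

theorem tst_sound (d code e a b c n : ℕ) (h : tst d code e a b c n = true)
    (ha : dg d a < 7) (hb : dg d b < 7) (hc : dg d c < 7) (h1 : dg d a ≠ dg d b)
    (h2 : dg d a ≠ dg d c) (h3 : dg d b ≠ dg d c) :
    (bs (d.testBit (21 + a)) : ℝ) * bs (d.testBit (21 + b)) * bs (d.testBit (21 + c)) *
      bs (e.testBit n) * (bs (sg3 (dg d a) (dg d b) (dg d c)).1 *
        bs (code.testBit (sg3 (dg d a) (dg d b) (dg d c)).2)) = 1 := by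
  unfold tst at h
  rw [Nat.beq_eq] at h
  simp only at h
  rw [tte_eq _ ha _ hb _ hc h1 h2 h3] at h
  have hlt := sg3_lt _ ha _ hb _ hc h1 h2 h3
  set s := sg3 (dg d a) (dg d b) (dg d c)
  have e1 : Nat.shiftRight (s.2 + 64 * (cond s.1 1 0)) 6 = cond s.1 1 0 := by
    have : Nat.shiftRight (s.2 + 64 * (cond s.1 1 0)) 6 = (s.2 + 64 * (cond s.1 1 0)) / 2 ^ 6 :=
      Nat.shiftRight_eq_div_pow _ _
    rw [this]
    cases s.1 <;> simp <;> omega
  have e2 : Nat.mod (s.2 + 64 * (cond s.1 1 0)) 64 = s.2 := by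
    change (s.2 + 64 * (cond s.1 1 0)) % 64 = s.2
    omega
  rw [e1, e2] at h
  have h4 : Even ((Nat.shiftRight d (21 + a) + Nat.shiftRight d (21 + b)) +
      (Nat.shiftRight d (21 + c) + Nat.shiftRight e n) +
      (cond s.1 1 0 + Nat.shiftRight code s.2)) := Nat.even_iff.2 h
  have h5 := h4.neg_one_pow (α := ℝ)
  rw [pow_add, pow_add, pow_add, pow_add, pow_add, pw_shift, pw_shift, pw_shift, pw_shift,
    pw_shift] at h5
  have e3 : ((-1 : ℝ)) ^ (cond s.1 1 0 : ℕ) = bs s.1 := by cases s.1 <;> simp [bs]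
  rw [e3] at h5
  linarith

/-- the relabelled and reoriented vectors -/
def rel (w : ℕ → V) (d : ℕ) (i : ℕ) : V := (bs (d.testBit (21 + i)) : ℝ) • w (dg d i)

theorem D3_smul (a b c : ℝ) (x y z : V) : D3 (a • x) (b • y) (c • z) = a * b * c * D3 x y z := by
  unfold D3
  simp only [Pi.smul_apply, smul_eq_mul]
  ring

theorem prm_surj (d : ℕ) (h : prm d = true) (i : Fin 7) : ∃ j : Fin 7, dg d j = i := by
  unfold prm at h
  rw [Nat.beq_eq] at h
  have h1 := congrArg (fun m => Nat.testBit m i) h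
  have h127 : ∀ i : Fin 7, Nat.testBit 127 i = true := by decide
  change Nat.testBit _ _ = Nat.testBit 127 i at h1
  rw [h127 i] at h1
  change Nat.testBit (2 ^ (dg d 0) ||| (2 ^ (dg d 1) ||| (2 ^ (dg d 2) ||| (2 ^ (dg d 3) |||
    (2 ^ (dg d 4) ||| (2 ^ (dg d 5) ||| 2 ^ (dg d 6))))))) i = true at h1
  simp only [Nat.testBit_lor, Nat.testBit_two_pow, Bool.or_eq_true, decide_eq_true_eq] at h1
  rcases h1 with h1 | h1 | h1 | h1 | h1 | h1 | h1
  · exact ⟨0, h1⟩
  · exact ⟨1, h1⟩
  · exact ⟨2, h1⟩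
  · exact ⟨3, h1⟩
  · exact ⟨4, h1⟩
  · exact ⟨5, h1⟩
  · exact ⟨6, h1⟩

theorem prm_ok (d : ℕ) (h : prm d = true) :
    (∀ j < 7, dg d j < 7) ∧ (∀ j < 7, ∀ i < j, dg d i ≠ dg d j) := by
  choose J hJ using prm_surj d h
  have hinj : Function.Injective J := by
    intro i i' hii
    have h1 := hJ i
    rw [hii, hJ i'] at h1
    exact Fin.ext h1.symm
  have hsur : Function.Surjective J := Finite.surjective_of_injective hinj
  constructor
  · intro j hj
    obtain ⟨i, hi⟩ := hsur ⟨j, hj⟩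
    have h1 := hJ i
    rw [hi] at h1
    simp only at h1
    rw [h1]
    exact i.2
  · intro j hj i hij heq
    obtain ⟨a, ha⟩ := hsur ⟨j, hj⟩
    obtain ⟨b, hb⟩ := hsur ⟨i, by omega⟩
    have h1 := hJ a
    have h2 := hJ b
    rw [ha] at h1
    rw [hb] at h2
    simp only at h1 h2
    have h3 : a = b := by
      apply Fin.ext
      rw [← h1, ← h2, heq]
    rw [h3, hb] at ha
    have := congrArg Fin.val ha
    simp only at this
    omega

theorem leaf_sound (w : ℕ → V) (d code : ℕ) (hm : Mt w code 35) (h : leafOK d code = true) :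
    ∃ c < 11, (∀ j < 7, dg d j < 7) ∧ (∀ j < 7, ∀ i < j, dg d i ≠ dg d j) ∧
      Mt (rel w d) (ec.getD c 0) 35 := by
  unfold leafOK at h
  rw [Bool.and_eq_true, Bool.and_eq_true, Nat.blt_eq] at h
  obtain ⟨h1, h2, h3⟩ := h
  obtain ⟨h4, h5⟩ := prm_ok d h2
  refine ⟨Nat.shiftRight d 28, h1, h4, h5, ?_⟩
  intro n hn
  have h6 := lchk_tst d code _ tl 0 h3 n (by simpa [tl] using hn)
  rw [zero_add] at h6
  have h7 : tl.getD n (0, 0, 0) = trip n := by
    unfold trip
    rw [trips_eq]
  rw [h7] at h6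
  obtain ⟨k1, k2, k3, _⟩ := ix_trip n hn
  have q := tst_sound d code _ _ _ _ n h6 (h4 _ (by omega)) (h4 _ (by omega)) (h4 _ k3)
    (h5 _ (by omega) _ k1) (h5 _ k3 _ (by omega)) (h5 _ k3 _ k2)
  have e : pc (rel w d) n = (bs (d.testBit (21 + (trip n).1)) : ℝ) *
      bs (d.testBit (21 + (trip n).2.1)) * bs (d.testBit (21 + (trip n).2.2)) *
      ((bs (sg3 (dg d (trip n).1) (dg d (trip n).2.1) (dg d (trip n).2.2)).1 : ℝ) *
        pc w (sg3 (dg d (trip n).1) (dg d (trip n).2.1) (dg d (trip n).2.2)).2) := by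
    unfold pc rel
    rw [D3_smul]
    rw [D3_sg3 w (h4 _ (by omega)) (h4 _ (by omega)) (h4 _ k3) (h5 _ (by omega) _ k1)
      (h5 _ k3 _ (by omega)) (h5 _ k3 _ k2)]
    rfl
  have hp := hm _ (sg3_lt _ (h4 (trip n).1 (by omega)) _ (h4 (trip n).2.1 (by omega)) _ (h4 _ k3)
    (h5 _ (by omega) _ k1) (h5 _ k3 _ (by omega)) (h5 _ k3 _ k2))
  rw [e]
  have q4 := bs_sq (code.testBit (sg3 (dg d (trip n).1) (dg d (trip n).2.1)
    (dg d (trip n).2.2)).2)
  set A := (bs (d.testBit (21 + (trip n).1)) : ℝ)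
  set B := (bs (d.testBit (21 + (trip n).2.1)) : ℝ)
  set C := (bs (d.testBit (21 + (trip n).2.2)) : ℝ)
  set S := (bs (sg3 (dg d (trip n).1) (dg d (trip n).2.1) (dg d (trip n).2.2)).1 : ℝ)
  set P := pc w (sg3 (dg d (trip n).1) (dg d (trip n).2.1) (dg d (trip n).2.2)).2
  set T := (bs (code.testBit (sg3 (dg d (trip n).1) (dg d (trip n).2.1) (dg d (trip n).2.2)).2) : ℝ)
  set E := (bs ((ec.getD (Nat.shiftRight d 28) 0).testBit n) : ℝ)
  have : E * (A * B * C * (S * P)) = (A * B * C * E * (S * T)) * (T * P) -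
      (A * B * C * E * S) * P * (T * T - 1) := by ring
  rw [this, q, q4]
  simpa using hp

end Q187.Cube
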