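import Pool.Agent.Q187.Cube.Vol

/-!
# Subspaces with edges of equal length, a better subspace, existence of a maximizer
-/

set_option autoImplicit false

open MeasureTheory

namespace Q187.Cube

/-- the standard basis vectors -/
noncomputable def sb (n : ℕ) (i : Fin n) : E n := EuclideanSpace.single i 1

theorem norm_co {H : Submodule ℝ (E 7)} (b : OrthonormalBasis (Fin 3) ℝ H) (i : Fin 7) :
    ‖H.orthogonalProjectionOnto (sb 7 i)‖ ^ 2 = dp (co b i) (co b i) := by
  rw [← b.repr.norm_map, EuclideanSpace.norm_sq_eq, Fin.sum_univ_three]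
  have h : (b.repr (H.orthogonalProjectionOnto (sb 7 i))).ofLp = co b i := by
    rw [repr_proj, Finset.sum_eq_single i]
    · simp [sb]
    · intro j _ hj
      simp [sb, hj]
    · simp
  rw [h]
  unfold dp
  simp only [Real.norm_eq_abs, sq_abs]
  ring

/-- an orthonormal basis of a three-dimensional subspace -/
noncomputable def ob {H : Submodule ℝ (E 7)} (hH : Module.finrank ℝ H = 3) :
    OrthonormalBasis (Fin 3) ℝ H := (stdOrthonormalBasis ℝ H).reindex (finCongr hH)

theorem upper {H : Submodule ℝ (E 7)} (hH : Module.finrank ℝ H = 3)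
    (heq : ∀ i j, ‖H.orthogonalProjectionOnto (sb 7 i)‖ = ‖H.orthogonalProjectionOnto (sb 7 j)‖) :
    F H ^ 2 ≤ 314 / 10 := by
  set b := ob hH
  rw [F_eq b]
  refine frame_bound (co_fr b) ?_
  have h1 : ∀ i, dp (co b i) (co b i) = dp (co b 0) (co b 0) := by
    intro i
    rw [← norm_co, ← norm_co, heq i 0]
  have h2 := fr_tr (co_fr b)
  rw [Finset.sum_congr rfl fun i _ => h1 i] at h2
  simp only [Finset.sum_const, Finset.card_univ, Fintype.card_fin, nsmul_eq_mul] at h2
  intro i
  rw [h1 i]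
  push_cast at h2
  linarith

/-! ## every frame comes from a subspace -/

theorem exists_sub (v : Fin 7 → V) (hv : Fr v) : ∃ (H : Submodule ℝ (E 7))
    (b : OrthonormalBasis (Fin 3) ℝ H), co b = v := by
  set uu : Fin 3 → E 7 := fun k => WithLp.toLp 2 fun i => v i k with huu
  have uu_orth : Orthonormal ℝ uu := by
    rw [orthonormal_iff_ite]
    intro k l
    rw [PiLp.inner_apply, ← hv k l]
    refine Finset.sum_congr rfl fun i _ => ?_
    simp [huu, mul_comm]
  have hc : (((EuclideanSpace.basisFun (Fin 3) ℝ).toBasis.constr ℝ uu) ∘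
      (EuclideanSpace.basisFun (Fin 3) ℝ).toBasis) = uu := by
    funext k
    exact Module.Basis.constr_basis _ _ _ _
  let ff : E 3 →ₗᵢ[ℝ] E 7 :=
    ((EuclideanSpace.basisFun (Fin 3) ℝ).toBasis.constr ℝ uu).isometryOfOrthonormal
      (v := (EuclideanSpace.basisFun (Fin 3) ℝ).toBasis)
      (by rw [OrthonormalBasis.coe_toBasis]; exact (EuclideanSpace.basisFun (Fin 3) ℝ).orthonormal)
      (by rw [hc]; exact uu_orth)
  have ff_apply : ∀ k, ff (EuclideanSpace.basisFun (Fin 3) ℝ k) = uu k := by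
    intro k
    have := Module.Basis.constr_basis (EuclideanSpace.basisFun (Fin 3) ℝ).toBasis ℝ uu k
    rw [OrthonormalBasis.coe_toBasis] at this
    exact this
  refine ⟨LinearMap.range ff.toLinearMap,
    (EuclideanSpace.basisFun (Fin 3) ℝ).map ff.equivRange, ?_⟩
  funext i k
  have h : ((((EuclideanSpace.basisFun (Fin 3) ℝ).map ff.equivRange) k :
    LinearMap.range ff.toLinearMap) : E 7) = uu k := by
    rw [← ff_apply]
    rfl
  unfold co
  rw [h]

theorem finrank_of {H : Submodule ℝ (E 7)} (b : OrthonormalBasis (Fin 3) ℝ H) :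
    Module.finrank ℝ H = 3 := by
  rw [Module.finrank_eq_card_basis b.toBasis]
  simp

/-! ## the maximum is attained -/

theorem Fr_closed : IsClosed {v : Fin 7 → V | Fr v} := by
  unfold Fr
  rw [Set.ofPred_forall]
  refine isClosed_iInter fun k => ?_
  rw [Set.ofPred_forall]
  refine isClosed_iInter fun l => ?_
  exact isClosed_eq (by fun_prop) continuous_const

theorem Fr_bdd {v : Fin 7 → V} (h : Fr v) (i : Fin 7) (k : Fin 3) : |v i k| ≤ 1 := by
  have h1 := h k k
  rw [if_pos rfl] at h1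
  have h2 : v i k * v i k ≤ ∑ i, v i k * v i k :=
    Finset.single_le_sum (f := fun i => v i k * v i k) (fun i _ => mul_self_nonneg _)
      (Finset.mem_univ i)
  rw [h1] at h2
  rw [← sq_le_one_iff_abs_le_one]
  nlinarith

theorem Fr_compact : IsCompact {v : Fin 7 → V | Fr v} := by
  have h1 : IsCompact (Set.pi Set.univ fun _ : Fin 7 => Set.pi Set.univ fun _ : Fin 3 =>
      Set.Icc (-1 : ℝ) 1) :=
    isCompact_univ_pi fun _ => isCompact_univ_pi fun _ => isCompact_Icc
  refine h1.of_isClosed_subset Fr_closed ?_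
  intro v hv i _ k _
  exact abs_le.1 (Fr_bdd hv i k)

theorem S1_cont : Continuous S1 := by
  unfold S1
  refine continuous_finsetSum _ fun a _ => continuous_finsetSum _ fun b _ =>
    continuous_finsetSum _ fun c _ => ?_
  exact (D3_cont (continuous_apply a) (continuous_apply b) (continuous_apply c)).abs

/-! ## the example -/

/-- rows of the example -/
def rw' (k : Fin 3) (i : Fin 7) : ℤ :=
  (![![15, 15, 28, 28, -21, -21, 47], ![-21, -21, 15, 15, 5, 5, 0],
    ![7, -7, 11, -11, -18, 18, 0]] : Fin 3 → Fin 7 → ℤ) k i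

/-- squares of the norms -/
def nn (k : Fin 3) : ℤ := (![5109, 1382, 988] : Fin 3 → ℤ) k

theorem rw_orth : ∀ k l : Fin 3, ∑ i, rw' k i * rw' l i = if k = l then nn k else 0 := by
  decide +kernel

theorem nn_pos (k : Fin 3) : (0 : ℝ) < nn k := by
  have : 0 < nn k := by revert k; decide
  exact_mod_cast this

/-- the example -/
noncomputable def v0 : Fin 7 → V := fun i k => (rw' k i : ℝ) / Real.sqrt (nn k)

theorem Fr_v0 : Fr v0 := by
  intro k l
  have e : ∀ i, v0 i k * v0 i l =
      ((rw' k i * rw' l i : ℤ) : ℝ) / (Real.sqrt (nn k) * Real.sqrt (nn l)) := by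
    intro i
    simp only [v0]
    push_cast
    ring
  rw [Finset.sum_congr rfl fun i _ => e i, ← Finset.sum_div, ← Int.cast_sum, rw_orth]
  split_ifs with h
  · subst h
    rw [Real.mul_self_sqrt (nn_pos k).le, div_self (nn_pos k).ne']
  · simp

theorem S1_v0 : S1 v0 = 2808168 / (Real.sqrt 5109 * Real.sqrt 1382 * Real.sqrt 988) := by
  set w : Fin 7 → Fin 3 → ℤ := fun i k => rw' k i with hw
  set DZ : Fin 7 → Fin 7 → Fin 7 → ℤ := fun a b c =>
    w a 0 * (w b 1 * w c 2 - w b 2 * w c 1) - w a 1 * (w b 0 * w c 2 - w b 2 * w c 0) +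
      w a 2 * (w b 0 * w c 1 - w b 1 * w c 0) with hDZ
  have e : ∀ a b c, |D3 (v0 a) (v0 b) (v0 c)| =
      (((DZ a b c).natAbs : ℤ) : ℝ) / (Real.sqrt 5109 * Real.sqrt 1382 * Real.sqrt 988) := by
    intro a b c
    have e1 : D3 (v0 a) (v0 b) (v0 c) =
        (DZ a b c : ℝ) / (Real.sqrt 5109 * Real.sqrt 1382 * Real.sqrt 988) := by
      unfold D3
      simp only [v0]
      rw [hDZ]
      simp only [hw]
      have n0 : ((nn 0 : ℤ) : ℝ) = 5109 := by simp [nn]
      have n1 : ((nn 1 : ℤ) : ℝ) = 1382 := by simp [nn]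
      have n2 : ((nn 2 : ℤ) : ℝ) = 988 := by simp [nn]
      rw [n0, n1, n2]
      push_cast
      have p0 : Real.sqrt 5109 ≠ 0 := by positivity
      have p1 : Real.sqrt 1382 ≠ 0 := by positivity
      have p2 : Real.sqrt 988 ≠ 0 := by positivity
      field_simp
    rw [e1, abs_div, abs_of_pos (show 0 < Real.sqrt 5109 * Real.sqrt 1382 * Real.sqrt 988 by
      positivity), Int.natCast_natAbs, Int.cast_abs]
  have hT : ∑ a, ∑ b, ∑ c, ((DZ a b c).natAbs : ℤ) = 2808168 := by
    rw [hDZ, hw]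
    decide +kernel
  unfold S1
  rw [Finset.sum_congr rfl fun a _ => Finset.sum_congr rfl fun b _ =>
    Finset.sum_congr rfl fun c _ => e a b c]
  simp only [← Finset.sum_div]
  congr 1
  exact_mod_cast hT

theorem S1_v0_gt : 314 / 10 < (S1 v0 / 6) ^ 2 := by
  rw [S1_v0, div_pow, div_pow, mul_pow, mul_pow, Real.sq_sqrt (by norm_num),
    Real.sq_sqrt (by norm_num), Real.sq_sqrt (by norm_num)]
  norm_num

theorem F_nonneg {H : Submodule ℝ (E 7)} : 0 ≤ F H := ENNReal.toReal_nonneg

/-- the maximum over the three-dimensional subspaces of seven-space is attained -/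
theorem exists_max : ∃ H : Submodule ℝ (E 7), Module.finrank ℝ H = 3 ∧
    ∀ K : Submodule ℝ (E 7), Module.finrank ℝ K = 3 → F K ≤ F H := by
  obtain ⟨v, hv, hmax⟩ := Fr_compact.exists_isMaxOn ⟨v0, Fr_v0⟩ S1_cont.continuousOn
  obtain ⟨H, b, hb⟩ := exists_sub v hv
  refine ⟨H, finrank_of b, fun K hK => ?_⟩
  rw [F_eq b, F_eq (ob hK), hb]
  have := hmax (co_fr (ob hK))
  simp only [Set.mem_ofPred_eq] at this
  linarith

/-- the better subspace -/
theorem exists_better : ∃ H : Submodule ℝ (E 7), Module.finrank ℝ H = 3 ∧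
    314 / 10 < F H ^ 2 := by
  obtain ⟨H, b, hb⟩ := exists_sub v0 Fr_v0
  refine ⟨H, finrank_of b, ?_⟩
  rw [F_eq b, hb]
  exact S1_v0_gt

end Q187.Cube
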