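import Pool.Agent.Q187.Cube.Gen

/-!
# Tight frames of seven vectors of equal length
-/

set_option autoImplicit false

namespace Q187.Cube

/-- Parseval frame -/
def Fr (v : Fin 7 → V) : Prop := ∀ k l : Fin 3, ∑ i, v i k * v i l = if k = l then 1 else 0

/-- dot product -/
def dp (x y : V) : ℝ := x 0 * y 0 + x 1 * y 1 + x 2 * y 2

theorem fr_dp {v : Fin 7 → V} (h : Fr v) (x : V) : ∑ b, dp x (v b) ^ 2 = dp x x := by
  have e : ∀ b, dp x (v b) ^ 2 = x 0 * x 0 * (v b 0 * v b 0) + x 1 * x 1 * (v b 1 * v b 1) +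
      x 2 * x 2 * (v b 2 * v b 2) + 2 * x 0 * x 1 * (v b 0 * v b 1) +
      2 * x 0 * x 2 * (v b 0 * v b 2) + 2 * x 1 * x 2 * (v b 1 * v b 2) := by
    intro b; unfold dp; ring
  rw [Finset.sum_congr rfl fun b _ => e b]
  simp only [Finset.sum_add_distrib, ← Finset.mul_sum]
  rw [h 0 0, h 1 1, h 2 2, h 0 1, h 0 2, h 1 2]
  unfold dp
  simp

/-- cross product -/
def cr (x y : V) : V := ![x 1 * y 2 - x 2 * y 1, x 2 * y 0 - x 0 * y 2, x 0 * y 1 - x 1 * y 0]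

theorem D3_cr (x y z : V) : D3 x y z = dp (cr x y) z := by
  unfold D3 dp cr
  simp
  ring

theorem dp_cr (x y : V) : dp (cr x y) (cr x y) = dp x x * dp y y - dp x y ^ 2 := by
  unfold dp cr
  simp
  ring

theorem fr_one {v : Fin 7 → V} (h : Fr v) (x y : V) :
    ∑ c, D3 x y (v c) ^ 2 = dp x x * dp y y - dp x y ^ 2 := by
  rw [← dp_cr, ← fr_dp h]
  exact Finset.sum_congr rfl fun c _ => by rw [D3_cr]

theorem fr_tr {v : Fin 7 → V} (h : Fr v) : ∑ b, dp (v b) (v b) = 3 := by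
  unfold dp
  rw [Finset.sum_add_distrib, Finset.sum_add_distrib, h 0 0, h 1 1, h 2 2]
  norm_num

theorem fr_two {v : Fin 7 → V} (h : Fr v) (x : V) :
    ∑ b, ∑ c, D3 x (v b) (v c) ^ 2 = 2 * dp x x := by
  rw [Finset.sum_congr rfl fun b _ => fr_one h x (v b)]
  rw [Finset.sum_sub_distrib, ← Finset.mul_sum, fr_tr h, fr_dp h]
  ring

theorem S2_frame {v : Fin 7 → V} (h : Fr v) (hn : ∀ i, dp (v i) (v i) = 3 / 7)
    (mu : Fin 7 → Fin 200) : S2 mu v = 6 * (314 / 10) := by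
  set M : ℝ := ∑ i, ((mu i : ℕ) : ℝ) with hM
  have e : ∀ a b c, W mu a b c * D3 (v a) (v b) (v c) ^ 2 =
      (314 / 10 - 3 * M / 1000) * D3 (v a) (v b) (v c) ^ 2 +
      7 / 1000 * (((mu a : ℕ) : ℝ) * D3 (v a) (v b) (v c) ^ 2) +
      7 / 1000 * (((mu b : ℕ) : ℝ) * D3 (v b) (v a) (v c) ^ 2) +
      7 / 1000 * (((mu c : ℕ) : ℝ) * D3 (v c) (v a) (v b) ^ 2) := by
    intro a b c
    rw [D3_swap (v a) (v b) (v c), D3_rot (v a) (v b) (v c)]
    unfold W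
    rw [← hM]
    ring
  have s1 : ∑ a, ∑ b, ∑ c, D3 (v a) (v b) (v c) ^ 2 = 6 := by
    rw [Finset.sum_congr rfl fun a _ => fr_two h (v a), ← Finset.mul_sum, fr_tr h]
    norm_num
  have s2 : ∑ a, ∑ b, ∑ c, ((mu a : ℕ) : ℝ) * D3 (v a) (v b) (v c) ^ 2 = 6 / 7 * M := by
    simp only [← Finset.mul_sum]
    rw [Finset.sum_congr rfl fun a _ => by rw [fr_two h (v a), hn a], hM, Finset.mul_sum]
    exact Finset.sum_congr rfl fun a _ => by ring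
  have s3 : ∑ a, ∑ b, ∑ c, ((mu b : ℕ) : ℝ) * D3 (v b) (v a) (v c) ^ 2 = 6 / 7 * M := by
    rw [Finset.sum_comm, ← s2]
  have s4 : ∑ a, ∑ b, ∑ c, ((mu c : ℕ) : ℝ) * D3 (v c) (v a) (v b) ^ 2 = 6 / 7 * M := by
    rw [← s2]
    have : ∀ a, ∑ b, ∑ c, ((mu c : ℕ) : ℝ) * D3 (v c) (v a) (v b) ^ 2 =
        ∑ c, ∑ b, ((mu c : ℕ) : ℝ) * D3 (v c) (v a) (v b) ^ 2 := fun a => Finset.sum_comm
    rw [Finset.sum_congr rfl fun a _ => this a, Finset.sum_comm]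
  unfold S2
  rw [Finset.sum_congr rfl fun a _ => Finset.sum_congr rfl fun b _ =>
    Finset.sum_congr rfl fun c _ => e a b c]
  simp only [Finset.sum_add_distrib, ← Finset.mul_sum]
  simp only [← Finset.mul_sum] at s1 s2 s3 s4
  rw [s1, s2, s3, s4]
  ring

theorem frame_bound {v : Fin 7 → V} (h : Fr v) (hn : ∀ i, dp (v i) (v i) = 3 / 7) :
    (S1 v / 6) ^ 2 ≤ 314 / 10 := by
  obtain ⟨mu, hmu⟩ := Ok_all v
  rw [S2_frame h hn mu] at hmu
  nlinarith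

end Q187.Cube
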