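import Pool.Agent.Q187.Cube.Sum

/-!
# Normal form of generic vectors, and the general case by continuity
-/

set_option autoImplicit false

open Polynomial

namespace Q187.Cube

/-- generic vectors -/
def Gn (v : Fin 7 → V) : Prop := ∀ a b c : Fin 7, a ≠ b → a ≠ c → b ≠ c → D3 (v a) (v b) (v c) ≠ 0

theorem D3_smul_ne {a b c : ℝ} {x y z : V} (ha : a ≠ 0) (hb : b ≠ 0) (hc : c ≠ 0)
    (h : D3 x y z ≠ 0) : D3 (a • x) (b • y) (c • z) ≠ 0 := by
  rw [D3_smul]
  positivity

/-- the permutation of `Fin 7` fixing `0, 1` -/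
def lift2 (e : Equiv.Perm (Fin 5)) : Equiv.Perm (Fin 7) :=
  Equiv.Perm.decomposeFin.symm (0, Equiv.Perm.decomposeFin.symm (0, e))

theorem lift2_zero (e : Equiv.Perm (Fin 5)) : lift2 e 0 = 0 := by
  unfold lift2
  rw [Equiv.Perm.decomposeFin_symm_apply_zero]

theorem lift2_one (e : Equiv.Perm (Fin 5)) : lift2 e 1 = 1 := by
  unfold lift2
  rw [show (1 : Fin 7) = Fin.succ 0 from rfl, Equiv.Perm.decomposeFin_symm_apply_succ,
    Equiv.Perm.decomposeFin_symm_apply_zero]
  simp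

theorem lift2_succ (e : Equiv.Perm (Fin 5)) (k : Fin 5) :
    lift2 e (k.succ.succ) = (e k).succ.succ := by
  unfold lift2
  rw [Equiv.Perm.decomposeFin_symm_apply_succ, Equiv.Perm.decomposeFin_symm_apply_succ]
  simp

theorem Ok_Gn (v : Fin 7 → V) (hv : Gn v) : Ok v := by
  -- signs
  set s : Fin 7 → ℝ := fun j => if D3 (v 0) (v 1) (v j) < 0 then -1 else 1 with hs
  have hs1 : ∀ j, |s j| = 1 := by
    intro j
    rw [hs]
    simp only
    split_ifs <;> simp
  have hs0 : ∀ j, s j ≠ 0 := by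
    intro j h
    have := hs1 j
    rw [h] at this
    simp at this
  have s0 : s 0 = 1 := by
    rw [hs]; simp only; rw [D3_self'']; simp
  have s1 : s 1 = 1 := by
    rw [hs]; simp only; rw [D3_self']; simp
  set u : Fin 7 → V := fun j => s j • v j with hu
  have u0 : u 0 = v 0 := by rw [hu]; simp only [s0, one_smul]
  have u1 : u 1 = v 1 := by rw [hu]; simp only [s1, one_smul]
  have hug : Gn u := fun a b c h1 h2 h3 => D3_smul_ne (hs0 a) (hs0 b) (hs0 c) (hv a b c h1 h2 h3)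
  have hp : ∀ j, j ≠ 0 → j ≠ 1 → 0 < D3 (u 0) (u 1) (u j) := by
    intro j h0 h1
    have h2 := hv 0 1 j (by decide) (Ne.symm h0) (Ne.symm h1)
    rw [u0, u1, hu]
    simp only
    have : D3 (v 0) (v 1) (s j • v j) = s j * D3 (v 0) (v 1) (v j) := by
      have := D3_smul 1 1 (s j) (v 0) (v 1) (v j)
      simpa using this
    rw [this, hs]
    simp only
    split_ifs with h
    · linarith
    · rw [one_mul]
      exact lt_of_le_of_ne (not_lt.1 h) h2.symm
  -- sorting
  set c : Fin 5 → ℝ := fun k => D3 (u 0) (u 2) (u k.succ.succ) / D3 (u 0) (u 1) (u k.succ.succ)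
    with hc
  set e := Tuple.sort c with he
  have hmono : Monotone (c ∘ e) := Tuple.monotone_sort c
  have hss : ∀ k : Fin 5, k.succ.succ ≠ (0 : Fin 7) ∧ k.succ.succ ≠ (1 : Fin 7) := by decide
  have h012 : 0 < D3 (u 0) (u 1) (u 2) := hp 2 (by decide) (by decide)
  have key2 : ∀ k l : Fin 5, k < l →
      0 < D3 (u 0) (u (e k).succ.succ) (u (e l).succ.succ) := by
    intro k l hkl
    set j := (e k).succ.succ
    set m := (e l).succ.succ
    have hj := hp j (hss _).1 (hss _).2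
    have hm := hp m (hss _).1 (hss _).2
    have hle : D3 (u 0) (u 2) (u j) / D3 (u 0) (u 1) (u j) ≤
        D3 (u 0) (u 2) (u m) / D3 (u 0) (u 1) (u m) := hmono hkl.le
    rw [div_le_div_iff₀ hj hm] at hle
    have hpl := pl3 (u 0) (u 1) (u 2) (u j) (u m)
    have hne : D3 (u 0) (u j) (u m) ≠ 0 := by
      refine hug 0 j m (hss _).1.symm (hss _).1.symm ?_
      intro h
      have := e.injective (Fin.succ_injective _ (Fin.succ_injective _ h))
      exact absurd this hkl.ne
    have hge : 0 ≤ D3 (u 0) (u 1) (u 2) * D3 (u 0) (u j) (u m) := by nlinarith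
    exact lt_of_le_of_ne ((mul_nonneg_iff_of_pos_left h012).1 hge) hne.symm
  set p := lift2 e with hpdef
  set w : Fin 7 → V := fun i => u (p i) with hw
  have hwv : ∀ i, w i = s (p i) • v (p i) := fun i => rfl
  refine Ok_of v w p (fun i => s (p i)) (fun i => hs1 _) hwv (Ok_NG w ?_)
  have w0 : w 0 = u 0 := by rw [hw]; simp only; rw [hpdef, lift2_zero]
  have w1 : w 1 = u 1 := by rw [hw]; simp only; rw [hpdef, lift2_one]
  have ws : ∀ k : Fin 5, w k.succ.succ = u (e k).succ.succ := by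
    intro k
    rw [hw]; simp only; rw [hpdef, lift2_succ]
  have hne : ∀ a b c : Fin 7, a ≠ b → a ≠ c → b ≠ c → D3 (w a) (w b) (w c) ≠ 0 := by
    intro a b c h1 h2 h3
    exact hug _ _ _ (p.injective.ne h1) (p.injective.ne h2) (p.injective.ne h3)
  have hpos : ∀ j l : Fin 7, 0 < j → j < l → 0 < D3 (w 0) (w j) (w l) := by
    intro j l h0 hjl
    rw [w0]
    rcases Fin.eq_zero_or_eq_succ j with rfl | ⟨j', rfl⟩
    · exact absurd h0 (lt_irrefl _)
    rcases Fin.eq_zero_or_eq_succ l with rfl | ⟨l', rfl⟩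
    · exact absurd hjl (Fin.not_lt_zero _)
    have hjl' : j' < l' := by simpa using hjl
    rcases Fin.eq_zero_or_eq_succ l' with rfl | ⟨l'', rfl⟩
    · exact absurd hjl' (Fin.not_lt_zero _)
    rw [ws l'']
    rcases Fin.eq_zero_or_eq_succ j' with rfl | ⟨j'', rfl⟩
    · rw [show (Fin.succ 0 : Fin 7) = 1 from rfl, w1]
      exact hp _ (hss _).1 (hss _).2
    · rw [ws j'']
      exact key2 j'' l'' (by simpa using hjl')
  constructor
  · intro j l h0 hjl hl
    have e0 : ext w 0 = w 0 := ext_val w 0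
    have ej : ext w j = w ⟨j, by omega⟩ := ext_val w ⟨j, by omega⟩
    have el : ext w l = w ⟨l, hl⟩ := ext_val w ⟨l, hl⟩
    rw [e0, ej, el]
    exact hpos _ _ (by rw [Fin.lt_def]; exact h0) (by rw [Fin.lt_def]; exact hjl)
  · intro n hn
    obtain ⟨k1, k2, k3, _⟩ := ix_trip n hn
    unfold pc
    have ea : ext w (trip n).1 = w ⟨(trip n).1, by omega⟩ := ext_val w ⟨(trip n).1, by omega⟩
    have eb : ext w (trip n).2.1 = w ⟨(trip n).2.1, by omega⟩ :=
      ext_val w ⟨(trip n).2.1, by omega⟩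
    have ec : ext w (trip n).2.2 = w ⟨(trip n).2.2, k3⟩ := ext_val w ⟨(trip n).2.2, k3⟩
    rw [ea, eb, ec]
    apply hne
    · intro h; rw [Fin.mk.injEq] at h; omega
    · intro h; rw [Fin.mk.injEq] at h; omega
    · intro h; rw [Fin.mk.injEq] at h; omega

/-! ## density -/

/-- moment curve -/
def mom (i : Fin 7) : V := ![1, (i : ℝ), (i : ℝ) ^ 2]

theorem mom_ne {a b c : Fin 7} (h1 : a ≠ b) (h2 : a ≠ c) (h3 : b ≠ c) :
    D3 (mom a) (mom b) (mom c) ≠ 0 := by
  have e : D3 (mom a) (mom b) (mom c) = ((b : ℝ) - a) * ((c : ℝ) - a) * ((c : ℝ) - b) := by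
    unfold D3 mom
    simp
    ring
  rw [e]
  have f : ∀ x y : Fin 7, x ≠ y → ((y : ℕ) : ℝ) - ((x : ℕ) : ℝ) ≠ 0 := by
    intro x y h h'
    apply h
    have : ((y : ℕ) : ℝ) = ((x : ℕ) : ℝ) := by linarith
    exact Fin.ext (by exact_mod_cast this.symm)
  exact mul_ne_zero (mul_ne_zero (f a b h1) (f a c h2)) (f b c h3)

/-- the polynomial `det (x + t x', y + t y', z + t z')` -/
noncomputable def pol (x y z x' y' z' : V) : ℝ[X] :=
  C (D3 x' y' z') * X ^ 3 + C (D3 x y' z' + D3 x' y z' + D3 x' y' z) * X ^ 2 +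
    C (D3 x' y z + D3 x y' z + D3 x y z') * X + C (D3 x y z)

theorem pol_eval (x y z x' y' z' : V) (t : ℝ) :
    (pol x y z x' y' z').eval t = D3 (x + t • x') (y + t • y') (z + t • z') := by
  unfold pol D3
  simp only [eval_add, eval_mul, eval_C, eval_pow, eval_X, Pi.add_apply, Pi.smul_apply,
    smul_eq_mul]
  ring

theorem pol_ne {x y z x' y' z' : V} (h : D3 x' y' z' ≠ 0) : pol x y z x' y' z' ≠ 0 := by
  intro h0
  have : (pol x y z x' y' z').coeff 3 = D3 x' y' z' := by
    unfold pol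
    simp only [coeff_add, coeff_C_mul, coeff_X_pow, coeff_X, coeff_C]
    norm_num
  rw [h0] at this
  simp at this
  exact h this.symm

theorem dense_Gn (v : Fin 7 → V) : v ∈ closure {u : Fin 7 → V | Gn u} := by
  set f : ℝ → (Fin 7 → V) := fun t => v + t • mom with hf
  have hfc : Continuous f := by
    rw [hf]
    fun_prop
  set B : Set ℝ := ⋃ (t : Fin 7 × Fin 7 × Fin 7) (_ : t.1 ≠ t.2.1 ∧ t.1 ≠ t.2.2 ∧ t.2.1 ≠ t.2.2),
    {r : ℝ | (pol (v t.1) (v t.2.1) (v t.2.2) (mom t.1) (mom t.2.1) (mom t.2.2)).eval r = 0}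
    with hB
  have hBf : B.Finite := by
    rw [hB]
    refine Set.finite_iUnion fun t => Set.finite_iUnion fun ht => ?_
    have hne : pol (v t.1) (v t.2.1) (v t.2.2) (mom t.1) (mom t.2.1) (mom t.2.2) ≠ 0 :=
      pol_ne (mom_ne ht.1 ht.2.1 ht.2.2)
    refine Set.Finite.subset (Polynomial.rootSet_finite _ ℝ) (s := (pol (v t.1) (v t.2.1) (v t.2.2)
      (mom t.1) (mom t.2.1) (mom t.2.2)).rootSet ℝ) ?_
    intro r hr
    rw [Polynomial.mem_rootSet]
    refine ⟨hne, ?_⟩
    simpa using hr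
  have hd : Dense Bᶜ := hBf.countable.dense_compl ℝ
  have h0 : (0 : ℝ) ∈ closure Bᶜ := hd 0
  have h1 : f 0 ∈ closure (f '' Bᶜ) := image_closure_subset_closure_image hfc ⟨0, h0, rfl⟩
  have h2 : f 0 = v := by rw [hf]; simp
  rw [h2] at h1
  refine closure_mono ?_ h1
  rintro _ ⟨t, ht, rfl⟩ a b c h1 h2 h3
  intro h4
  apply ht
  rw [hB]
  simp only [Set.mem_iUnion]
  refine ⟨(a, b, c), ⟨h1, h2, h3⟩, ?_⟩
  show eval t _ = 0
  rw [pol_eval]
  exact h4

theorem D3_cont {X : Type*} [TopologicalSpace X] {f g h : X → V} (hf : Continuous f)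
    (hg : Continuous g) (hh : Continuous h) : Continuous fun x => D3 (f x) (g x) (h x) := by
  unfold D3
  fun_prop

theorem closed_Ok (mu : Fin 7 → Fin 200) : IsClosed {v : Fin 7 → V | S1 v ^ 2 ≤ 6 * S2 mu v} := by
  apply isClosed_le
  · apply Continuous.pow
    unfold S1
    refine continuous_finsetSum _ fun a _ => continuous_finsetSum _ fun b _ =>
      continuous_finsetSum _ fun c _ => ?_
    exact (D3_cont (continuous_apply a) (continuous_apply b) (continuous_apply c)).abs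
  · apply Continuous.mul continuous_const
    unfold S2
    refine continuous_finsetSum _ fun a _ => continuous_finsetSum _ fun b _ =>
      continuous_finsetSum _ fun c _ => ?_
    exact continuous_const.mul
      ((D3_cont (continuous_apply a) (continuous_apply b) (continuous_apply c)).pow 2)

/-- the inequality holds for all seven-tuples -/
theorem Ok_all (v : Fin 7 → V) : Ok v := by
  have h1 : IsClosed (⋃ mu : Fin 7 → Fin 200, {v : Fin 7 → V | S1 v ^ 2 ≤ 6 * S2 mu v}) :=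
    isClosed_iUnion_of_finite fun mu => closed_Ok mu
  have h2 : {u : Fin 7 → V | Gn u} ⊆ ⋃ mu : Fin 7 → Fin 200, {v : Fin 7 → V | S1 v ^ 2 ≤
      6 * S2 mu v} := by
    intro u hu
    obtain ⟨mu, hmu⟩ := Ok_Gn u hu
    exact Set.mem_iUnion.2 ⟨mu, hmu⟩
  have h3 := closure_minimal h2 h1 (dense_Gn v)
  obtain ⟨mu, hmu⟩ := Set.mem_iUnion.1 h3
  exact ⟨mu, hmu⟩

end Q187.Cube
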