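import Pool.Agent.Q187.Cube.Cls
import Pool.Agent.Q187.Cube.Crt

/-!
# The inequality for all seven-tuples of vectors in normal form
-/

set_option autoImplicit false

namespace Q187.Cube

theorem dot_sum (l : List ℤ) (x : ℕ → ℝ) (k : ℕ) :
    dot l x k = ∑ i ∈ Finset.range l.length, ((l.getD i 0 : ℤ) : ℝ) * x (k + i) := by
  induction l generalizing k with
  | nil => simp [dot]
  | cons a l ih =>
    simp only [dot, List.length_cons, ih]
    rw [Finset.sum_range_succ']
    simp only [List.getD_cons_zero, List.getD_cons_succ, add_zero]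
    rw [add_comm]
    congr 1
    refine Finset.sum_congr rfl fun i _ => ?_
    rw [show k + 1 + i = k + (i + 1) by ring]

theorem dsq_sum (l : List ℤ) (x : ℕ → ℝ) (k : ℕ) :
    dsq l x k = ∑ i ∈ Finset.range l.length, ((l.getD i 0 : ℤ) : ℝ) ^ 2 * x (k + i) ^ 2 := by
  induction l generalizing k with
  | nil => simp [dsq]
  | cons a l ih =>
    simp only [dsq, List.length_cons, ih]
    rw [Finset.sum_range_succ']
    simp only [List.getD_cons_zero, List.getD_cons_succ, add_zero]
    rw [add_comm]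
    congr 1
    refine Finset.sum_congr rfl fun i _ => ?_
    rw [show k + 1 + i = k + (i + 1) by ring]

theorem dn_sum (l : List ℕ) (x : ℕ → ℝ) (k : ℕ) :
    dn l x k = ∑ i ∈ Finset.range l.length, ((l.getD i 0 : ℕ) : ℝ) * x (k + i) ^ 2 := by
  induction l generalizing k with
  | nil => simp [dn]
  | cons a l ih =>
    simp only [dn, List.length_cons, ih]
    rw [Finset.sum_range_succ']
    simp only [List.getD_cons_zero, List.getD_cons_succ, add_zero]
    rw [add_comm]
    congr 1
    refine Finset.sum_congr rfl fun i _ => ?_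
    rw [show k + 1 + i = k + (i + 1) by ring]

/-- weight of a triple -/
noncomputable def wt (mu : ℕ → ℕ) (a b c : ℕ) : ℝ :=
  314 / 10 + (7 * ((mu a : ℝ) + mu b + mu c) - 3 * ∑ i ∈ Finset.range 7, (mu i : ℝ)) / 1000

theorem abs_sum (w : ℕ → V) {c : ℕ} (hm : Mt w c 35) (l : List ℤ) (hl : l.length = 35)
    (he : ∀ n < 35, l.getD n 0 = bs (c.testBit n)) :
    dot l (pc w) 0 = ∑ n ∈ Finset.range 35, |pc w n| := by
  rw [dot_sum, hl]
  refine Finset.sum_congr rfl fun n hn => ?_
  have hn' := Finset.mem_range.1 hn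
  rw [he n hn', zero_add]
  have h := hm n hn'
  rw [← abs_of_pos h, abs_mul]
  cases c.testBit n <;> simp [bs]

theorem sq_sum (w : ℕ → V) {c : ℕ} (l : List ℤ) (hl : l.length = 35)
    (he : ∀ n < 35, l.getD n 0 = bs (c.testBit n)) :
    dsq l (pc w) 0 = ∑ n ∈ Finset.range 35, pc w n ^ 2 := by
  rw [dsq_sum, hl]
  refine Finset.sum_congr rfl fun n hn => ?_
  rw [he n (Finset.mem_range.1 hn), zero_add]
  cases c.testBit n <;> simp [bs]

theorem ten (w : ℕ → V) {c : ℕ} (hm : Mt w c 35) (l : List ℤ) (d : List ℕ) (hl : l.length = 35)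
    (hd : d.length = 35) (he : ∀ n < 35, l.getD n 0 = bs (c.testBit n))
    (hd' : ∀ n < 35, d.getD n 0 = 152)
    (h : 5 * (dot l (pc w) 0) ^ 2 ≤ dn d (pc w) 0 + 5 * dsq l (pc w) 0) :
    ∃ mu : ℕ → ℕ, (∀ i, mu i < 200) ∧ (∑ n ∈ Finset.range 35, |pc w n|) ^ 2 ≤
      ∑ n ∈ Finset.range 35, wt mu (trip n).1 (trip n).2.1 (trip n).2.2 * pc w n ^ 2 := by
  refine ⟨fun _ => 0, fun _ => by norm_num, ?_⟩
  rw [abs_sum w hm l hl he, sq_sum w l hl he, dn_sum, hd] at h
  have e : ∑ n ∈ Finset.range 35, ((d.getD n 0 : ℕ) : ℝ) * pc w (0 + n) ^ 2 +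
      5 * ∑ n ∈ Finset.range 35, pc w n ^ 2 = 5 * ∑ n ∈ Finset.range 35,
        wt (fun _ => 0) (trip n).1 (trip n).2.1 (trip n).2.2 * pc w n ^ 2 := by
    rw [Finset.mul_sum, Finset.mul_sum, ← Finset.sum_add_distrib]
    refine Finset.sum_congr rfl fun n hn => ?_
    rw [hd' n (Finset.mem_range.1 hn)]
    simp only [wt, zero_add]
    norm_num
    ring
  rw [e] at h
  linarith

/-- multipliers of the remaining class -/
def mu9 : List ℕ := [0, 135, 177, 179, 177, 135, 0]

theorem nine (w : ℕ → V) (hm : Mt w (ec.getD 9 0) 35) :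
    ∃ mu : ℕ → ℕ, (∀ i, mu i < 200) ∧ (∑ n ∈ Finset.range 35, |pc w n|) ^ 2 ≤
      ∑ n ∈ Finset.range 35, wt mu (trip n).1 (trip n).2.1 (trip n).2.2 * pc w n ^ 2 := by
  refine ⟨fun i => mu9.getD i 0, ?_, ?_⟩
  · intro i
    by_cases hi : i < 7
    · revert i; decide
    · have : mu9.getD i 0 = 0 := by
        simp [mu9, List.getD, show 7 ≤ i by omega]
      show mu9.getD i 0 < 200
      rw [this]; norm_num
  · have h := b9 w
    have hl : e9.length = 35 := by decide +kernel
    have he : ∀ n < 35, e9.getD n 0 = bs ((ec.getD 9 0).testBit n) := by decide +kernel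
    rw [abs_sum w hm e9 hl he, sq_sum w e9 hl he, dn_sum,
      show d9.length = 35 by decide +kernel] at h
    have e : ∑ n ∈ Finset.range 35, ((d9.getD n 0 : ℕ) : ℝ) * pc w (0 + n) ^ 2 +
        1000 * ∑ n ∈ Finset.range 35, pc w n ^ 2 = 1000 * ∑ n ∈ Finset.range 35,
          wt (fun i => mu9.getD i 0) (trip n).1 (trip n).2.1 (trip n).2.2 * pc w n ^ 2 := by
      rw [Finset.mul_sum, Finset.mul_sum, ← Finset.sum_add_distrib]
      refine Finset.sum_congr rfl fun n hn => ?_
      have hd : ∀ n < 35, d9.getD n 0 + 3 * 803 = 30400 + 7 * (mu9.getD (trip n).1 0 +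
          mu9.getD (trip n).2.1 0 + mu9.getD (trip n).2.2 0) := by
        decide +kernel
      have hd1 : ((d9.getD n 0 : ℕ) : ℝ) + 3 * 803 = 30400 + 7 * ((mu9.getD (trip n).1 0 : ℝ) +
          mu9.getD (trip n).2.1 0 + mu9.getD (trip n).2.2 0) := by
        exact_mod_cast hd n (Finset.mem_range.1 hn)
      have hs : ∑ i ∈ Finset.range 7, (mu9.getD i 0 : ℝ) = 803 := by
        simp [Finset.sum_range_succ, mu9]
        norm_num
      have hd2 : ((d9.getD n 0 : ℕ) : ℝ) = 30400 + 7 * ((mu9.getD (trip n).1 0 : ℝ) +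
          mu9.getD (trip n).2.1 0 + mu9.getD (trip n).2.2 0) - 3 * 803 := by linarith
      simp only [wt, zero_add, hs]
      rw [hd2]
      ring
    rw [e] at h
    linarith

theorem cls_ineq (w : ℕ → V) {c : ℕ} (hc : c < 11) (hm : Mt w (ec.getD c 0) 35) :
    ∃ mu : ℕ → ℕ, (∀ i, mu i < 200) ∧ (∑ n ∈ Finset.range 35, |pc w n|) ^ 2 ≤
      ∑ n ∈ Finset.range 35, wt mu (trip n).1 (trip n).2.1 (trip n).2.2 * pc w n ^ 2 := by
  interval_cases c
  · exact ten w hm e0 d0 (by decide +kernel) (by decide +kernel) (by decide +kernel)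
      (by decide +kernel) (b0 w)
  · exact ten w hm e1 d1 (by decide +kernel) (by decide +kernel) (by decide +kernel)
      (by decide +kernel) (b1 w)
  · exact ten w hm e2 d2 (by decide +kernel) (by decide +kernel) (by decide +kernel)
      (by decide +kernel) (b2 w)
  · exact ten w hm e3 d3 (by decide +kernel) (by decide +kernel) (by decide +kernel)
      (by decide +kernel) (b3 w)
  · exact ten w hm e4 d4 (by decide +kernel) (by decide +kernel) (by decide +kernel)
      (by decide +kernel) (b4 w)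
  · exact ten w hm e5 d5 (by decide +kernel) (by decide +kernel) (by decide +kernel)
      (by decide +kernel) (b5 w)
  · exact ten w hm e6 d6 (by decide +kernel) (by decide +kernel) (by decide +kernel)
      (by decide +kernel) (b6 w)
  · exact ten w hm e7 d7 (by decide +kernel) (by decide +kernel) (by decide +kernel)
      (by decide +kernel) (b7 w)
  · exact ten w hm e8 d8 (by decide +kernel) (by decide +kernel) (by decide +kernel)
      (by decide +kernel) (b8 w)
  · exact nine w hm
  · exact ten w hm e10 d10 (by decide +kernel) (by decide +kernel) (by decide +kernel)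
      (by decide +kernel) (b10 w)

end Q187.Cube
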