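import Mathlib

/-!
# Weighted diagonal dominance of quadratic forms with integer coefficients

Off-diagonal coefficients are stored as a list of rows, row `s` is the list of the coefficients of
`x_s x_t`, `t = s + 1, s + 2, …`.
-/

set_option autoImplicit false

namespace Q187.Cube

/-- linear form -/
def dot : List ℤ → (ℕ → ℝ) → ℕ → ℝ
  | [], _, _ => 0
  | a :: l, x, k => (a : ℝ) * x k + dot l x (k + 1)

/-- off-diagonal part of a quadratic form -/
def qo : List (List ℤ) → (ℕ → ℝ) → ℕ → ℝ
  | [], _, _ => 0
  | r :: M, x, k => x k * dot r x (k + 1) + qo M x (k + 1)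

/-- multiple -/
def lsm (c : ℤ) : List ℤ → List ℤ
  | [] => []
  | a :: l => Int.mul c a :: lsm c l

/-- change one entry -/
def addAt : List ℤ → ℕ → ℤ → List ℤ
  | [], 0, v => [v]
  | [], n + 1, v => 0 :: addAt [] n v
  | a :: l, 0, v => Int.add a v :: l
  | a :: l, n + 1, v => a :: addAt l n v

/-- change the coefficient of `x_s x_(s+m+1)` -/
def maddAt : List (List ℤ) → ℕ → ℕ → ℤ → List (List ℤ)
  | [], 0, m, v => [addAt [] m v]
  | [], s + 1, m, v => [] :: maddAt [] s m v
  | r :: M, 0, m, v => addAt r m v :: M
  | r :: M, s + 1, m, v => r :: maddAt M s m v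

/-- off-diagonal part of `c (∑ e_i x_i)²/2` -/
def offI (c : ℤ) : List ℤ → List (List ℤ)
  | [] => []
  | e :: es => lsm (Int.mul c e) es :: offI c es

/-- sum of squares -/
def dsq : List ℤ → (ℕ → ℝ) → ℕ → ℝ
  | [], _, _ => 0
  | e :: es, x, k => (e : ℝ) ^ 2 * x k ^ 2 + dsq es x (k + 1)

theorem dot_lsm (c : ℤ) (l : List ℤ) (x : ℕ → ℝ) (k : ℕ) :
    dot (lsm c l) x k = c * dot l x k := by
  induction l generalizing k with
  | nil => simp [lsm, dot]
  | cons a l ih =>
    simp only [lsm, dot, ih]
    rw [show Int.mul c a = c * a from rfl]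
    push_cast
    ring

theorem dot_addAt (l : List ℤ) (n : ℕ) (v : ℤ) (x : ℕ → ℝ) (k : ℕ) :
    dot (addAt l n v) x k = dot l x k + v * x (k + n) := by
  induction l generalizing n k with
  | nil =>
    induction n generalizing k with
    | zero => simp [addAt, dot]
    | succ n ih =>
      simp only [addAt, dot, ih]
      rw [show k + 1 + n = k + (n + 1) by ring]
      simp
  | cons a l ih =>
    cases n with
    | zero =>
      simp only [addAt, dot, add_zero]
      rw [show Int.add a v = a + v from rfl]
      push_cast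
      ring
    | succ n =>
      simp only [addAt, dot, ih]
      rw [show k + 1 + n = k + (n + 1) by ring]
      ring

theorem q_maddAt (M : List (List ℤ)) (s m : ℕ) (v : ℤ) (x : ℕ → ℝ) (k : ℕ) :
    qo (maddAt M s m v) x k = qo M x k + v * (x (k + s) * x (k + s + 1 + m)) := by
  induction M generalizing s k with
  | nil =>
    induction s generalizing k with
    | zero =>
      simp only [maddAt, qo, dot_addAt, dot, add_zero, zero_add]
      ring
    | succ s ih =>
      simp only [maddAt, qo, dot, ih]
      rw [show k + 1 + s = k + (s + 1) by ring]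
      simp
  | cons r M ih =>
    cases s with
    | zero =>
      simp only [maddAt, qo, dot_addAt, add_zero]
      ring
    | succ s =>
      simp only [maddAt, qo, ih]
      rw [show k + 1 + s = k + (s + 1) by ring]
      ring

theorem q_offI (c : ℤ) (es : List ℤ) (x : ℕ → ℝ) (k : ℕ) :
    2 * qo (offI c es) x k = c * (dot es x k ^ 2 - dsq es x k) := by
  induction es generalizing k with
  | nil => simp [offI, qo, dot, dsq]
  | cons e es ih =>
    simp only [offI, qo, dot, dsq, dot_lsm]
    rw [mul_add, ih, show Int.mul c e = c * e from rfl]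
    push_cast
    ring

/-! ## diagonal dominance -/

/-- weighted sum of absolute values -/
def wab : List ℤ → List ℕ → ℕ
  | a :: l, w :: ws => Nat.add (Nat.mul (Int.natAbs a) w) (wab l ws)
  | _, _ => 0

/-- update of the used budget -/
def upd (w : ℕ) : List ℤ → List ℕ → List ℕ
  | [], us => us
  | a :: l, [] => Nat.mul (Int.natAbs a) w :: upd w l []
  | a :: l, u :: us => Nat.add u (Nat.mul (Int.natAbs a) w) :: upd w l us

/-- check of weighted diagonal dominance -/
def chkT : List ℕ → List ℕ → List (List ℤ) → List ℕ → Bool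
  | w :: ws, d :: ds, r :: M, u :: us =>
    Bool.and (Nat.blt 0 w) (Bool.and
      (Nat.ble (Nat.add u (wab r ws)) (Nat.mul (Nat.mul 2 d) w)) (chkT ws ds M (upd w r us)))
  | w :: ws, d :: ds, r :: M, [] =>
    Bool.and (Nat.blt 0 w) (Bool.and
      (Nat.ble (wab r ws) (Nat.mul (Nat.mul 2 d) w)) (chkT ws ds M (upd w r [])))
  | [], [], [], [] => true
  | _, _, _, _ => false

/-- diagonal part -/
def dn : List ℕ → (ℕ → ℝ) → ℕ → ℝ
  | [], _, _ => 0
  | d :: ds, x, k => (d : ℝ) * x k ^ 2 + dn ds x (k + 1)

/-- weighted used budget -/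
noncomputable def us' : List ℕ → List ℕ → (ℕ → ℝ) → ℕ → ℝ
  | u :: us, w :: ws, x, k => (u : ℝ) * x k ^ 2 / w + us' us ws x (k + 1)
  | _, _, _, _ => 0

/-- weighted absolute part -/
noncomputable def ab' : List ℤ → List ℕ → (ℕ → ℝ) → ℕ → ℝ
  | a :: l, w :: ws, x, k => |(a : ℝ)| * x k ^ 2 / w + ab' l ws x (k + 1)
  | _, _, _, _ => 0

theorem natAbs_cast (a : ℤ) : ((Int.natAbs a : ℕ) : ℝ) = |(a : ℝ)| := by
  rw [← Int.cast_abs, ← Int.natCast_natAbs, Int.cast_natCast]

theorem us_upd (w : ℕ) (l : List ℤ) (us ws : List ℕ) (x : ℕ → ℝ) (k : ℕ)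
    (hl : l.length ≤ ws.length) :
    us' (upd w l us) ws x k = us' us ws x k + w * ab' l ws x k := by
  induction l generalizing us ws k with
  | nil => cases us <;> cases ws <;> simp [upd, ab']
  | cons a l ih =>
    cases ws with
    | nil => simp at hl
    | cons w' ws =>
      have hl' : l.length ≤ ws.length := by simpa using hl
      cases us with
      | nil =>
        simp only [upd, us', ab']
        rw [ih [] ws (k + 1) hl']
        have e : us' [] ws x (k + 1) = 0 := by cases ws <;> simp [us']
        rw [e, show Nat.mul (Int.natAbs a) w = Int.natAbs a * w from rfl]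
        push_cast
        rw [natAbs_cast]
        ring
      | cons u us =>
        simp only [upd, us', ab']
        rw [ih us ws (k + 1) hl', show Nat.add u (Nat.mul (Int.natAbs a) w) =
          u + Int.natAbs a * w from rfl]
        push_cast
        rw [natAbs_cast]
        ring

theorem row_le (l : List ℤ) (ws : List ℕ) (hws : ∀ w ∈ ws, 0 < w) (x : ℕ → ℝ) (k : ℕ)
    (hl : l.length ≤ ws.length) (y : ℝ) (w : ℕ) (hw : 0 < w) :
    -(w * ab' l ws x k + y ^ 2 / w * wab l ws) ≤ 2 * (y * dot l x k) := by
  induction l generalizing ws k with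
  | nil => cases ws <;> simp [ab', wab, dot]
  | cons a l ih =>
    cases ws with
    | nil => simp at hl
    | cons w' ws =>
      have hl' : l.length ≤ ws.length := by simpa using hl
      have h := ih ws (fun v hv => hws v (List.mem_cons_of_mem _ hv)) (k + 1) hl'
      have hw' : (0 : ℝ) < w' := by exact_mod_cast hws w' List.mem_cons_self
      have hw0 : (0 : ℝ) < w := by exact_mod_cast hw
      simp only [ab', wab, dot]
      rw [show Nat.add (Nat.mul (Int.natAbs a) w') (wab l ws) = Int.natAbs a * w' + wab l ws
        from rfl]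
      push_cast
      rw [natAbs_cast]
      -- AM-GM
      have h2 : -(|(a : ℝ)| * (w * (x k ^ 2 / w') + y ^ 2 / w * w')) ≤ 2 * (y * (a * x k)) := by
        have h3 : 2 * |y * x k| ≤ w * (x k ^ 2 / w') + y ^ 2 / w * w' := by
          have e1 : (w : ℝ) * (x k ^ 2 / w') + y ^ 2 / w * w' - 2 * |y * x k| =
              (w * |x k| - w' * |y|) ^ 2 / (w * w') := by
            rw [abs_mul]
            field_simp
            rw [sub_sq, mul_pow, mul_pow, sq_abs, sq_abs]
            ring
          have e2 : (0 : ℝ) ≤ (w * |x k| - w' * |y|) ^ 2 / (w * w') := by positivity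
          linarith
        have h4 : |2 * (y * ((a : ℝ) * x k))| = |(a : ℝ)| * (2 * |y * x k|) := by
          rw [show 2 * (y * ((a : ℝ) * x k)) = a * (2 * (y * x k)) by ring, abs_mul, abs_mul 2,
            abs_of_pos (by norm_num : (0 : ℝ) < 2)]
        have h5 := neg_abs_le (2 * (y * ((a : ℝ) * x k)))
        rw [h4] at h5
        have := mul_le_mul_of_nonneg_left h3 (abs_nonneg (a : ℝ))
        linarith
      have e3 : (w : ℝ) * (|(a : ℝ)| * x k ^ 2 / w' + ab' l ws x (k + 1)) + y ^ 2 / w *
          (|(a : ℝ)| * w' + wab l ws) = |(a : ℝ)| * (w * (x k ^ 2 / w') + y ^ 2 / w * w') +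
          (w * ab' l ws x (k + 1) + y ^ 2 / w * wab l ws) := by ring
      rw [e3]
      linarith

theorem len_upd (w : ℕ) (l : List ℤ) (us : List ℕ) : l.length ≤ (upd w l us).length ∧
    us.length ≤ (upd w l us).length := by
  induction l generalizing us with
  | nil => simp [upd]
  | cons a l ih =>
    cases us with
    | nil => simpa [upd] using (ih []).1
    | cons u us => simpa [upd] using ih us

theorem chk_sound (ws ds : List ℕ) (M : List (List ℤ)) (us : List ℕ) (x : ℕ → ℝ) (k : ℕ)
    (h : chkT ws ds M us = true) :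
    (∀ w ∈ ws, 0 < w) ∧ us.length ≤ ws.length ∧
      us' us ws x k ≤ 2 * (dn ds x k + qo M x k) := by
  induction ws generalizing ds M us k with
  | nil =>
    cases ds with
    | nil =>
      cases M with
      | nil =>
        cases us with
        | nil => simp [us', dn, qo]
        | cons u us => simp [chkT] at h
      | cons r M => simp [chkT] at h
    | cons d ds => simp [chkT] at h
  | cons w ws ih =>
    cases ds with
    | nil => simp [chkT] at h
    | cons d ds =>
      cases M with
      | nil => simp [chkT] at h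
      | cons r M =>
        -- uniform treatment
        obtain ⟨u, us1, hu, h1, h2, h3⟩ : ∃ (u : ℕ) (us1 : List ℕ),
            (us = u :: us1 ∨ (us = [] ∧ u = 0 ∧ us1 = [])) ∧ 0 < w ∧
            u + wab r ws ≤ 2 * d * w ∧ chkT ws ds M (upd w r us1) = true := by
          cases us with
          | nil =>
            simp only [chkT] at h
            change (Bool.and _ (Bool.and _ _)) = true at h
            rw [Bool.and_eq_true, Bool.and_eq_true] at h
            refine ⟨0, [], Or.inr ⟨rfl, rfl, rfl⟩, ?_, ?_, h.2.2⟩
            · have := h.1; rw [Nat.blt_eq] at this; exact this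
            · have := Nat.le_of_ble_eq_true h.2.1
              rw [zero_add]; exact this
          | cons u us1 =>
            simp only [chkT] at h
            rw [Bool.and_eq_true, Bool.and_eq_true] at h
            refine ⟨u, us1, Or.inl rfl, ?_, ?_, h.2.2⟩
            · have := h.1; rw [Nat.blt_eq] at this; exact this
            · exact Nat.le_of_ble_eq_true h.2.1
        obtain ⟨k1, k2, k3⟩ := ih ds M (upd w r us1) (k + 1) h3
        obtain ⟨l1, l2⟩ := len_upd w r us1
        have hr : r.length ≤ ws.length := le_trans l1 k2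
        have hus : us'  us (w :: ws) x k = (u : ℝ) * x k ^ 2 / w + us' us1 ws x (k + 1) := by
          rcases hu with rfl | ⟨rfl, rfl, rfl⟩
          · rfl
          · have e : us' [] ws x (k + 1) = 0 := by cases ws <;> simp [us']
            rw [e]
            simp [us']
        refine ⟨?_, ?_, ?_⟩
        · intro v hv
          rcases List.mem_cons.1 hv with rfl | hv
          · exact h1
          · exact k1 v hv
        · rcases hu with rfl | ⟨rfl, rfl, rfl⟩
          · simp only [List.length_cons]
            omega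
          · simp
        · rw [hus]
          simp only [dn, qo]
          have m1 := row_le r ws k1 x (k + 1) hr (x k) w h1
          rw [us_upd w r us1 ws x (k + 1) hr] at k3
          have hw0 : (0 : ℝ) < w := by exact_mod_cast h1
          have m2 : ((u : ℝ) + wab r ws) * x k ^ 2 / w ≤ 2 * (d * x k ^ 2) := by
            have m3 : ((u : ℝ) + wab r ws) ≤ 2 * d * w := by exact_mod_cast h2
            rw [div_le_iff₀ hw0]
            nlinarith [mul_le_mul_of_nonneg_right m3 (sq_nonneg (x k))]
          have m4 : ((u : ℝ) + wab r ws) * x k ^ 2 / w = (u : ℝ) * x k ^ 2 / w +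
              x k ^ 2 / w * wab r ws := by ring
          rw [m4] at m2
          linarith

/-! ## certificates -/

/-- a quadratic relation: list of `(s, m, b)` meaning `∑ ± x_s x_(s+1+m) = 0`, sign `-` if `b` -/
def rv (r : List (ℕ × ℕ × Bool)) (x : ℕ → ℝ) : ℝ :=
  (r.map fun t => (if t.2.2 then -1 else 1 : ℝ) * (x t.1 * x (t.1 + 1 + t.2.1))).sum

/-- add a multiple of a relation -/
def radd (y : ℤ) : List (ℕ × ℕ × Bool) → List (List ℤ) → List (List ℤ)
  | [], M => M
  | (s, m, b) :: r, M => maddAt (radd y r M) s m (cond b (Int.neg y) y)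

theorem q_radd (y : ℤ) (r : List (ℕ × ℕ × Bool)) (M : List (List ℤ)) (x : ℕ → ℝ) :
    qo (radd y r M) x 0 = qo M x 0 + y * rv r x := by
  induction r with
  | nil => simp [radd, rv]
  | cons t r ih =>
    obtain ⟨s, m, b⟩ := t
    simp only [radd, q_maddAt, ih, zero_add]
    unfold rv
    simp only [List.map_cons, List.sum_cons]
    cases b
    · simp only [cond_false, Bool.false_eq_true, if_false]
      ring
    · simp only [cond_true, if_true]
      rw [show Int.neg y = -y from rfl]
      push_cast
      ring

/-- add several relations -/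
def rsadd : List ℤ → List (List (ℕ × ℕ × Bool)) → List (List ℤ) → List (List ℤ)
  | y :: ys, r :: rs, M => radd y r (rsadd ys rs M)
  | _, _, M => M

theorem q_rsadd (ys : List ℤ) (rs : List (List (ℕ × ℕ × Bool))) (M : List (List ℤ)) (x : ℕ → ℝ)
    (h : ∀ r ∈ rs, rv r x = 0) : qo (rsadd ys rs M) x 0 = qo M x 0 := by
  induction ys generalizing rs with
  | nil => simp [rsadd]
  | cons y ys ih =>
    cases rs with
    | nil => simp [rsadd]
    | cons r rs =>
      simp only [rsadd, q_radd]
      rw [ih rs fun r hr => h r (List.mem_cons_of_mem _ hr), h r List.mem_cons_self]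
      ring

theorem cert (N : ℕ) (eps ys : List ℤ) (ds ws : List ℕ) (rs : List (List (ℕ × ℕ × Bool)))
    (h : chkT ws ds (rsadd ys rs (offI (-(2 * N : ℤ)) eps)) [] = true)
    (x : ℕ → ℝ) (hx : ∀ r ∈ rs, rv r x = 0) :
    N * (dot eps x 0) ^ 2 ≤ dn ds x 0 + N * dsq eps x 0 := by
  obtain ⟨_, _, h1⟩ := chk_sound ws ds _ [] x 0 h
  rw [q_rsadd _ _ _ _ hx] at h1
  have h2 := q_offI (-(2 * N : ℤ)) eps x 0
  have e : us' [] ws x 0 = 0 := by cases ws <;> simp [us']
  rw [e] at h1
  push_cast at h2
  nlinarith

/-- digits of a number in base `B`, shifted by `off` -/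
def dig (B off : ℕ) : ℕ → ℕ → List ℤ
  | 0, _ => []
  | n + 1, X => Int.subNatNat (Nat.mod X B) off :: dig B off n (Nat.div X B)

/-- digits of a number in base `B` -/
def dgn (B : ℕ) : ℕ → ℕ → List ℕ
  | 0, _ => []
  | n + 1, X => Nat.mod X B :: dgn B n (Nat.div X B)

end Q187.Cube
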