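import Pool.Agent.Q187.Cube.Mat

/-!
# Determinants of triples of vectors in three-space and the Grassmann-Plücker relations
-/

set_option autoImplicit false

namespace Q187.Cube

/-- three-space -/
abbrev V := Fin 3 → ℝ

/-- determinant -/
def D3 (a b c : V) : ℝ :=
  a 0 * (b 1 * c 2 - b 2 * c 1) - a 1 * (b 0 * c 2 - b 2 * c 0) + a 2 * (b 0 * c 1 - b 1 * c 0)

theorem D3_swap (a b c : V) : D3 b a c = -D3 a b c := by unfold D3; ring

theorem D3_swap' (a b c : V) : D3 a c b = -D3 a b c := by unfold D3; ring

theorem D3_rot (a b c : V) : D3 c a b = D3 a b c := by unfold D3; ring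

theorem D3_rot' (a b c : V) : D3 b c a = D3 a b c := by unfold D3; ring

theorem D3_rev (a b c : V) : D3 c b a = -D3 a b c := by unfold D3; ring

theorem D3_self (a c : V) : D3 a a c = 0 := by unfold D3; ring

theorem D3_self' (a c : V) : D3 a c c = 0 := by unfold D3; ring

theorem D3_self'' (a c : V) : D3 a c a = 0 := by unfold D3; ring

theorem pl3 (i j k l m : V) :
    D3 i j k * D3 i l m - D3 i j l * D3 i k m + D3 i j m * D3 i k l = 0 := by
  unfold D3; ring

theorem pl4 (a x p q r s : V) :
    D3 a x p * D3 q r s - D3 a x q * D3 p r s + D3 a x r * D3 p q s - D3 a x s * D3 p q r = 0 := by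
  unfold D3; ring

/-- colexicographic index of `a < b < c` -/
def ix (a b c : ℕ) : ℕ := a + b * (b - 1) / 2 + c * (c - 1) * (c - 2) / 6

/-- the triples in colexicographic order -/
def trips : List (ℕ × ℕ × ℕ) :=
  (List.range 7).flatMap fun c => (List.range c).flatMap fun b => (List.range b).map fun a =>
    (a, b, c)

/-- decode -/
def trip (n : ℕ) : ℕ × ℕ × ℕ := trips.getD n (0, 0, 0)

theorem trip_ix : ∀ c < 7, ∀ b < c, ∀ a < b, trip (ix a b c) = (a, b, c) := by decide +kernel

theorem ix_trip : ∀ n < 35, (trip n).1 < (trip n).2.1 ∧ (trip n).2.1 < (trip n).2.2 ∧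
    (trip n).2.2 < 7 ∧ ix (trip n).1 (trip n).2.1 (trip n).2.2 = n := by decide +kernel

/-- Plücker coordinates -/
def pc (w : ℕ → V) (n : ℕ) : ℝ := D3 (w (trip n).1) (w (trip n).2.1) (w (trip n).2.2)

/-- sign and sorted index of an ordered triple -/
def sg3 (a b c : ℕ) : Bool × ℕ :=
  if a < b then
    if b < c then (false, ix a b c) else if a < c then (true, ix a c b) else (false, ix c a b)
  else
    if a < c then (true, ix b a c) else if b < c then (false, ix b c a) else (true, ix c b a)

/-- sign -/
def bs (b : Bool) : ℤ := if b then -1 else 1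

theorem bs_true : bs true = -1 := rfl

theorem bs_false : bs false = 1 := rfl

theorem pc_ix (w : ℕ → V) {a b c : ℕ} (h1 : a < b) (h2 : b < c) (h3 : c < 7) :
    pc w (ix a b c) = D3 (w a) (w b) (w c) := by
  unfold pc
  rw [trip_ix c h3 b h2 a h1]

theorem D3_sg3 (w : ℕ → V) {a b c : ℕ} (ha : a < 7) (hb : b < 7) (hc : c < 7) (hab : a ≠ b)
    (hac : a ≠ c) (hbc : b ≠ c) :
    D3 (w a) (w b) (w c) = (bs (sg3 a b c).1 : ℝ) * pc w (sg3 a b c).2 := by
  unfold sg3
  split_ifs with h1 h2 h3 h4 h5
  · simp only [bs_false, pc_ix w h1 h2 hc]; push_cast; ring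
  · simp only [bs_true, pc_ix w h3 (show c < b by omega) hb, D3_swap' (w a) (w b) (w c)]
    push_cast; ring
  · simp only [bs_false, pc_ix w (show c < a by omega) h1 hb, D3_rot (w a) (w b) (w c)]
    push_cast; ring
  · simp only [bs_true, pc_ix w (show b < a by omega) h4 hc, D3_swap (w a) (w b) (w c)]
    push_cast; ring
  · simp only [bs_false, pc_ix w h5 (show c < a by omega) ha, D3_rot' (w a) (w b) (w c)]
    push_cast; ring
  · simp only [bs_true, pc_ix w (show c < b by omega) (show b < a by omega) ha,
      D3_rev (w a) (w b) (w c)]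
    push_cast; ring

/-- entry of a relation: `(s, m, b)` stands for `± x_s x_(s+1+m)`, sign `-` if `b` -/
def mk (s : Bool) (a b c d e f : ℕ) : ℕ × ℕ × Bool :=
  let u := sg3 a b c
  let v := sg3 d e f
  (min u.2 v.2, max u.2 v.2 - min u.2 v.2 - 1, (s ^^ (u.1 ^^ v.1)))

/-- three-term relation -/
def rel3 (t : ℕ × ℕ × ℕ × ℕ × ℕ) : List (ℕ × ℕ × Bool) :=
  let i := t.1; let j := t.2.1; let k := t.2.2.1; let l := t.2.2.2.1; let m := t.2.2.2.2
  [mk false i j k i l m, mk true i j l i k m, mk false i j m i k l]

/-- four-term relation -/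
def rel4 (t : ℕ × ℕ × ℕ × ℕ × ℕ × ℕ) : List (ℕ × ℕ × Bool) :=
  let a := t.1; let x := t.2.1; let p := t.2.2.1; let q := t.2.2.2.1; let r := t.2.2.2.2.1
  let s := t.2.2.2.2.2
  [mk false a x p q r s, mk true a x q p r s, mk false a x r p q s, mk true a x s p q r]

theorem bs_xor (a b : Bool) : (bs (a ^^ b) : ℝ) = bs a * bs b := by
  cases a <;> cases b <;> simp [bs]

theorem mk_val (w : ℕ → V) (s : Bool) {a b c d e f : ℕ} (ha : a < 7) (hb : b < 7) (hc : c < 7)
    (hd : d < 7) (he : e < 7) (hf : f < 7) (hab : a ≠ b) (hac : a ≠ c) (hbc : b ≠ c)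
    (hde : d ≠ e) (hdf : d ≠ f) (hef : e ≠ f) (hne : (sg3 a b c).2 ≠ (sg3 d e f).2) :
    (if (mk s a b c d e f).2.2 then -1 else 1 : ℝ) * (pc w (mk s a b c d e f).1 *
      pc w ((mk s a b c d e f).1 + 1 + (mk s a b c d e f).2.1)) =
      bs s * (D3 (w a) (w b) (w c) * D3 (w d) (w e) (w f)) := by
  rw [D3_sg3 w ha hb hc hab hac hbc, D3_sg3 w hd he hf hde hdf hef]
  unfold mk
  simp only
  have e0 : ∀ β : Bool, (if β = true then -1 else 1 : ℝ) = bs β := by
    intro β; cases β <;> simp [bs]
  rw [e0, bs_xor, bs_xor]
  rcases lt_or_gt_of_ne hne with h | h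
  · rw [min_eq_left h.le, max_eq_right h.le, show (sg3 a b c).2 + 1 + ((sg3 d e f).2 -
      (sg3 a b c).2 - 1) = (sg3 d e f).2 by omega]
    ring
  · rw [min_eq_right h.le, max_eq_left h.le, show (sg3 d e f).2 + 1 + ((sg3 a b c).2 -
      (sg3 d e f).2 - 1) = (sg3 a b c).2 by omega]
    ring

/-- check of the indices -/
def ok5 (t : ℕ × ℕ × ℕ × ℕ × ℕ) : Bool :=
  let i := t.1; let j := t.2.1; let k := t.2.2.1; let l := t.2.2.2.1; let m := t.2.2.2.2
  decide (j < k) && decide (k < l) && decide (l < m) && decide (m < 7) && decide (i < 7) &&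
    decide (i ≠ j) && decide (i ≠ k) && decide (i ≠ l) && decide (i ≠ m) &&
    decide ((sg3 i j k).2 ≠ (sg3 i l m).2) && decide ((sg3 i j l).2 ≠ (sg3 i k m).2) &&
    decide ((sg3 i j m).2 ≠ (sg3 i k l).2)

/-- check of the indices -/
def ok6 (t : ℕ × ℕ × ℕ × ℕ × ℕ × ℕ) : Bool :=
  let a := t.1; let x := t.2.1; let p := t.2.2.1; let q := t.2.2.2.1; let r := t.2.2.2.2.1
  let s := t.2.2.2.2.2
  decide (p < q) && decide (q < r) && decide (r < s) && decide (s < 7) && decide (a < x) &&
    decide (x < 7) &&
    decide (a ≠ p) && decide (a ≠ q) && decide (a ≠ r) && decide (a ≠ s) &&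
    decide (x ≠ p) && decide (x ≠ q) && decide (x ≠ r) && decide (x ≠ s) &&
    decide ((sg3 a x p).2 ≠ (sg3 q r s).2) && decide ((sg3 a x q).2 ≠ (sg3 p r s).2) &&
    decide ((sg3 a x r).2 ≠ (sg3 p q s).2) && decide ((sg3 a x s).2 ≠ (sg3 p q r).2)

theorem rv_rel3 (w : ℕ → V) (t : ℕ × ℕ × ℕ × ℕ × ℕ) (h : ok5 t = true) :
    rv (rel3 t) (pc w) = 0 := by
  obtain ⟨i, j, k, l, m⟩ := t
  simp only [ok5, Bool.and_eq_true, decide_eq_true_eq] at h
  obtain ⟨⟨⟨⟨⟨⟨⟨⟨⟨⟨⟨h1, h2⟩, h3⟩, h4⟩, h5⟩, h6⟩, h7⟩, h8⟩, h9⟩, n1⟩, n2⟩, n3⟩ := h
  unfold rv rel3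
  simp only [List.map_cons, List.map_nil, List.sum_cons, List.sum_nil]
  rw [mk_val w false (by omega) (by omega) (by omega) (by omega) (by omega) (by omega) (by omega)
    (by omega) (by omega) (by omega) (by omega) (by omega) n1,
    mk_val w true (by omega) (by omega) (by omega) (by omega) (by omega) (by omega) (by omega)
    (by omega) (by omega) (by omega) (by omega) (by omega) n2,
    mk_val w false (by omega) (by omega) (by omega) (by omega) (by omega) (by omega) (by omega)
    (by omega) (by omega) (by omega) (by omega) (by omega) n3]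
  have := pl3 (w i) (w j) (w k) (w l) (w m)
  rw [bs_true, bs_false]
  push_cast
  linarith

theorem rv_rel4 (w : ℕ → V) (t : ℕ × ℕ × ℕ × ℕ × ℕ × ℕ) (h : ok6 t = true) :
    rv (rel4 t) (pc w) = 0 := by
  obtain ⟨a, x, p, q, r, s⟩ := t
  simp only [ok6, Bool.and_eq_true, decide_eq_true_eq] at h
  obtain ⟨⟨⟨⟨⟨⟨⟨⟨⟨⟨⟨⟨⟨⟨⟨⟨⟨h1, h2⟩, h3⟩, h4⟩, h5⟩, h6⟩, h7⟩, h8⟩, h9⟩, h10⟩, h11⟩, h12⟩, h13⟩, h14⟩,
    n1⟩, n2⟩, n3⟩, n4⟩ := h
  unfold rv rel4
  simp only [List.map_cons, List.map_nil, List.sum_cons, List.sum_nil]
  rw [mk_val w false (by omega) (by omega) (by omega) (by omega) (by omega) (by omega) (by omega)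
    (by omega) (by omega) (by omega) (by omega) (by omega) n1,
    mk_val w true (by omega) (by omega) (by omega) (by omega) (by omega) (by omega) (by omega)
    (by omega) (by omega) (by omega) (by omega) (by omega) n2,
    mk_val w false (by omega) (by omega) (by omega) (by omega) (by omega) (by omega) (by omega)
    (by omega) (by omega) (by omega) (by omega) (by omega) n3,
    mk_val w true (by omega) (by omega) (by omega) (by omega) (by omega) (by omega) (by omega)
    (by omega) (by omega) (by omega) (by omega) (by omega) n4]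
  have := pl4 (w a) (w x) (w p) (w q) (w r) (w s)
  rw [bs_true, bs_false]
  push_cast
  linarith

/-- three-term index tuples -/
def p3 : ℕ → ℕ → List (ℕ × ℕ × ℕ × ℕ × ℕ)
  | 0, _ => []
  | n + 1, X => (X % 8, X / 8 % 8, X / 64 % 8, X / 512 % 8, X / 4096 % 8) :: p3 n (X / 32768)

/-- four-term index tuples -/
def p4 : ℕ → ℕ → List (ℕ × ℕ × ℕ × ℕ × ℕ × ℕ)
  | 0, _ => []
  | n + 1, X => (X % 8, X / 8 % 8, X / 64 % 8, X / 512 % 8, X / 4096 % 8, X / 32768 % 8) ::
      p4 n (X / 262144)

/-- the index tuples -/
def q3 : List (ℕ × ℕ × ℕ × ℕ × ℕ) := p3 105 919676607637059305212711515779029326698134718379349023960102231051675113970704857084707910403131228811371113998980582731851451267038252433561330736537644479834283935073920381736764396400289233426597440755166243292660812169638805815874999872134491772503555065216987770988778125221828893566882369048582295695733847176853250825602483620537320610319819726420514326824279187943062712250545978327189953434153195497531885246657496706034146598109479590917767622641135207508483524232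

/-- the index tuples -/
def q4 : List (ℕ × ℕ × ℕ × ℕ × ℕ × ℕ) := p4 35 3092290816158946807246166643352256219333499570030436324070838791782736539741797031163572565398851605036920257171774195105004318519735881421691904423814911476915262096596966248471737617532552

/-- one relation from digits -/
def dec : ℕ → ℕ → List (ℕ × ℕ × Bool)
  | 0, _ => []
  | n + 1, X => (Nat.mod X 64, Nat.mod (Nat.div X 64) 64, Nat.beq (Nat.mod (Nat.div X 4096) 2) 1) ::
      dec n (Nat.div X 8192)

/-- relations from digits -/
def decs (k : ℕ) : ℕ → ℕ → List (List (ℕ × ℕ × Bool))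
  | 0, _ => []
  | n + 1, X => dec k X :: decs k n (Nat.div X (Nat.pow 8192 k))

/-- the three-term relations -/
def r3 : List (List (ℕ × ℕ × Bool)) := decs 3 105 10041959473936334290474786104511055104591038397808424753627044690854178212735382102894595110306412586924855340698989251774626059594577882816895595313784125097782369600582459949193208286887261574439623920184177391612009245747893968108623363024198433976872005705609665984649133551521516387099590139448182909729141371251223303758452737810899596581901651576082084087509711861850300128616801872549194780501502288775903470850409753057237311655860602292048355001540896108450032668999433320923418080235275507944280907259591078460304438366969271323491606627471909874038461235626803418932191639480817670671268487514128547766264878575019550074639735010538489124533338130827224392543118150613408350119360340076748674437654385912079549834640771532335773072946716685310315826960958077885983185426627814223304708994043625445415598230180739575112106271335052266661848676460819457220799749388749633357275293928137631584768838293874996366813587831094264058409766926171036211001505158173251738569813176694466997487466393326888375164364642518609224227023400630740075806246788221386707663605074977951845563543263593008941706812107064423484453539623555436832043968189432371643670469546738080950830766654298300505184686775013469381487257506997948116377984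

/-- the four-term relations -/
def r4 : List (List (ℕ × ℕ × Bool)) := decs 4 35 12379086217894587332820415020191442958526985787193729310441686711337612280193921285173424253290648403598483151205371380640488485392800513109175851246621119131439793031815658195464973207034192571032577852191355312886700188052100268379120401816231861287617721058827943958060347277354435237988080795718314337789448135846005613346104599678035265341180820792925297758964235693454889410873886316302803410380998938692557295174822776991366541252139821693149244401853939593668420166671643888610921835629835652507945724133904517654771583450074191917962241152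

/-- the relations -/
def rels : List (List (ℕ × ℕ × Bool)) := r3 ++ r4

/-- equality test -/
def eqL : List (ℕ × ℕ × Bool) → List (ℕ × ℕ × Bool) → Bool
  | [], [] => true
  | a :: l, b :: m => Bool.and (Nat.beq a.1 b.1) (Bool.and (Nat.beq a.2.1 b.2.1)
      (Bool.and (a.2.2 == b.2.2) (eqL l m)))
  | _, _ => false

/-- equality test -/
def eqM {α : Type} (f : α → List (ℕ × ℕ × Bool)) (g : α → Bool) : List α →
    List (List (ℕ × ℕ × Bool)) → Bool
  | [], [] => true
  | a :: l, b :: m => Bool.and (g a) (Bool.and (eqL (f a) b) (eqM f g l m))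
  | _, _ => false

theorem eqL_eq (l m : List (ℕ × ℕ × Bool)) (h : eqL l m = true) : l = m := by
  induction l generalizing m with
  | nil => cases m <;> simp_all [eqL]
  | cons a l ih =>
    cases m with
    | nil => simp [eqL] at h
    | cons b m =>
      simp only [eqL] at h
      rw [Bool.and_eq_true, Bool.and_eq_true, Bool.and_eq_true] at h
      obtain ⟨h1, h2, h3, h4⟩ := h
      rw [Nat.beq_eq] at h1 h2
      rw [beq_iff_eq] at h3
      rw [ih m h4]
      congr 1
      exact Prod.ext h1 (Prod.ext h2 h3)

theorem eqM_mem {α : Type} (f : α → List (ℕ × ℕ × Bool)) (g : α → Bool) (l : List α)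
    (m : List (List (ℕ × ℕ × Bool))) (h : eqM f g l m = true) :
    ∀ r ∈ m, ∃ a, g a = true ∧ f a = r := by
  induction l generalizing m with
  | nil =>
    cases m with
    | nil => simp
    | cons b m => simp [eqM] at h
  | cons a l ih =>
    cases m with
    | nil => simp [eqM] at h
    | cons b m =>
      simp only [eqM] at h
      rw [Bool.and_eq_true, Bool.and_eq_true] at h
      intro r hr
      rcases List.mem_cons.1 hr with rfl | hr
      · exact ⟨a, h.1, eqL_eq _ _ h.2.1⟩
      · exact ih m h.2.2 r hr

theorem q3_ok : eqM rel3 ok5 q3 r3 = true := by decide +kernel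

theorem q4_ok : eqM rel4 ok6 q4 r4 = true := by decide +kernel

theorem rels_zero (w : ℕ → V) : ∀ r ∈ rels, rv r (pc w) = 0 := by
  intro r hr
  unfold rels at hr
  rcases List.mem_append.1 hr with hr | hr
  · obtain ⟨t, ht, rfl⟩ := eqM_mem _ _ _ _ q3_ok r hr
    exact rv_rel3 w t ht
  · obtain ⟨t, ht, rfl⟩ := eqM_mem _ _ _ _ q4_ok r hr
    exact rv_rel4 w t ht

end Q187.Cube
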