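import Pool.Agent.Q187.Cube.Ineq

/-!
# Symmetric sums over triples, invariance under relabelling and reorientation
-/

set_option autoImplicit false

namespace Q187.Cube

/-- index of a triple, `35` if two entries agree -/
def key (t : ℕ × ℕ × ℕ) : ℕ :=
  if t.1 = t.2.1 ∨ t.1 = t.2.2 ∨ t.2.1 = t.2.2 then 35 else (sg3 t.1 t.2.1 t.2.2).2

/-- all triples -/
def box : Finset (ℕ × ℕ × ℕ) := Finset.range 7 ×ˢ Finset.range 7 ×ˢ Finset.range 7

theorem key_lt : ∀ a < 7, ∀ b < 7, ∀ c < 7, key (a, b, c) < 36 := by decide +kernel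

theorem card_key : ∀ n < 35, (box.filter fun t => key t = n).card = 6 := by decide +kernel

theorem sum_sym (g : ℕ → ℕ → ℕ → ℝ) (h12 : ∀ a b c, g b a c = g a b c)
    (h23 : ∀ a b c, g a c b = g a b c) (h0 : ∀ a c, g a a c = 0) :
    ∑ a ∈ Finset.range 7, ∑ b ∈ Finset.range 7, ∑ c ∈ Finset.range 7, g a b c =
      6 * ∑ n ∈ Finset.range 35, g (trip n).1 (trip n).2.1 (trip n).2.2 := by
  set h : ℕ → ℝ := fun n => if n < 35 then g (trip n).1 (trip n).2.1 (trip n).2.2 else 0 with hh
  have hix : ∀ a b c, a < b → b < c → c < 7 → h (ix a b c) = g a b c := by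
    intro a b c h1 h2 h3
    have h4 : ix a b c < 35 := by
      have := sg3_lt a (by omega) b (by omega) c h3 (by omega) (by omega) (by omega)
      unfold sg3 at this
      rw [if_pos h1, if_pos h2] at this
      exact this
    rw [hh]
    simp only
    rw [if_pos h4, trip_ix c h3 b h2 a h1]
  have h35 : h 35 = 0 := by rw [hh]; simp
  have hg : ∀ a < 7, ∀ b < 7, ∀ c < 7, g a b c = h (key (a, b, c)) := by
    intro a ha b hb c hc
    unfold key
    simp only
    split_ifs with h1
    · rw [h35]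
      rcases h1 with h1 | h1 | h1
      · rw [h1, h0]
      · rw [h1, h23, h0]
      · rw [h1, h12, h23, h0]
    · push Not at h1
      obtain ⟨h1, h2, h3⟩ := h1
      unfold sg3
      split_ifs with k1 k2 k3 k4 k5
      · rw [hix a b c k1 k2 hc]
      · rw [hix a c b k3 (by omega) hb, h23]
      · rw [hix c a b (by omega) k1 hb]
        exact ((h12 a c b).trans (h23 a b c)).symm
      · rw [hix b a c (by omega) k4 hc, h12]
      · rw [hix b c a k5 (by omega) ha]
        exact ((h23 b a c).trans (h12 a b c)).symm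
      · rw [hix c b a (by omega) (by omega) ha, h12, h23, h12]
  have e1 : ∑ a ∈ Finset.range 7, ∑ b ∈ Finset.range 7, ∑ c ∈ Finset.range 7, g a b c =
      ∑ t ∈ box, h (key t) := by
    unfold box
    rw [Finset.sum_product]
    refine Finset.sum_congr rfl fun a ha => ?_
    rw [Finset.sum_product]
    refine Finset.sum_congr rfl fun b hb => Finset.sum_congr rfl fun c hc => ?_
    exact hg a (Finset.mem_range.1 ha) b (Finset.mem_range.1 hb) c (Finset.mem_range.1 hc)
  have hmap : ∀ t ∈ box, key t ∈ Finset.range 36 := by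
    rintro ⟨a, b, c⟩ ht
    unfold box at ht
    simp only [Finset.mem_product, Finset.mem_range] at ht
    exact Finset.mem_range.2 (key_lt a ht.1 b ht.2.1 c ht.2.2)
  rw [e1, ← Finset.sum_fiberwise_of_maps_to hmap, Finset.sum_range_succ, Finset.mul_sum]
  have e2 : ∑ t ∈ box.filter (fun t => key t = 35), h (key t) = 0 := by
    apply Finset.sum_eq_zero
    intro t ht
    rw [(Finset.mem_filter.1 ht).2, h35]
  rw [e2, add_zero]
  refine Finset.sum_congr rfl fun n hn => ?_
  have hn' := Finset.mem_range.1 hn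
  have e3 : ∑ t ∈ box.filter (fun t => key t = n), h (key t) =
      ∑ t ∈ box.filter (fun t => key t = n), h n :=
    Finset.sum_congr rfl fun t ht => by rw [(Finset.mem_filter.1 ht).2]
  rw [e3, Finset.sum_const, card_key n hn', nsmul_eq_mul, hh]
  simp only
  rw [if_pos hn']
  norm_num

/-- extension by periodicity -/
def ext (v : Fin 7 → V) (n : ℕ) : V := v (Fin.ofNat 7 n)

theorem ext_val (v : Fin 7 → V) (i : Fin 7) : ext v i = v i := by
  unfold ext
  congr 1
  ext
  simp [Fin.ofNat, Nat.mod_eq_of_lt i.2]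

/-- sum of the absolute values -/
noncomputable def S1 (v : Fin 7 → V) : ℝ := ∑ a, ∑ b, ∑ c, |D3 (v a) (v b) (v c)|

/-- weight -/
noncomputable def W (mu : Fin 7 → Fin 200) (a b c : Fin 7) : ℝ :=
  314 / 10 + (7 * (((mu a : ℕ) : ℝ) + (mu b : ℕ) + (mu c : ℕ)) - 3 * ∑ i, ((mu i : ℕ) : ℝ)) / 1000

/-- weighted sum of the squares -/
noncomputable def S2 (mu : Fin 7 → Fin 200) (v : Fin 7 → V) : ℝ :=
  ∑ a, ∑ b, ∑ c, W mu a b c * D3 (v a) (v b) (v c) ^ 2

theorem S1_eq (v : Fin 7 → V) : S1 v = 6 * ∑ n ∈ Finset.range 35, |pc (ext v) n| := by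
  have h := sum_sym (fun a b c => |D3 (ext v a) (ext v b) (ext v c)|)
    (fun a b c => by rw [D3_swap, abs_neg])
    (fun a b c => by rw [D3_swap', abs_neg])
    (fun a c => by rw [D3_self, abs_zero])
  unfold pc
  rw [← h, Finset.sum_range]
  unfold S1
  refine Finset.sum_congr rfl fun a _ => ?_
  rw [Finset.sum_range]
  refine Finset.sum_congr rfl fun b _ => ?_
  rw [Finset.sum_range]
  refine Finset.sum_congr rfl fun c _ => ?_
  rw [ext_val, ext_val, ext_val]

theorem S2_eq (mu : Fin 7 → Fin 200) (mu' : ℕ → ℕ) (hmu : ∀ i : Fin 7, ((mu i : ℕ)) = mu' i)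
    (v : Fin 7 → V) : S2 mu v = 6 * ∑ n ∈ Finset.range 35,
      wt mu' (trip n).1 (trip n).2.1 (trip n).2.2 * pc (ext v) n ^ 2 := by
  have h := sum_sym (fun a b c => wt mu' a b c * D3 (ext v a) (ext v b) (ext v c) ^ 2)
    (fun a b c => by rw [D3_swap]; unfold wt; ring)
    (fun a b c => by rw [D3_swap']; unfold wt; ring)
    (fun a c => by rw [D3_self]; ring)
  unfold pc
  rw [← h, Finset.sum_range]
  unfold S2
  refine Finset.sum_congr rfl fun a _ => ?_
  rw [Finset.sum_range]
  refine Finset.sum_congr rfl fun b _ => ?_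
  rw [Finset.sum_range]
  refine Finset.sum_congr rfl fun c _ => ?_
  rw [ext_val, ext_val, ext_val]
  congr 1
  unfold W wt
  rw [Finset.sum_range, hmu, hmu, hmu]
  simp only [hmu]

/-- the inequality holds for some multipliers -/
def Ok (v : Fin 7 → V) : Prop := ∃ mu : Fin 7 → Fin 200, S1 v ^ 2 ≤ 6 * S2 mu v

theorem Ok_of (v u : Fin 7 → V) (p : Equiv.Perm (Fin 7)) (s : Fin 7 → ℝ) (hs : ∀ i, |s i| = 1)
    (h : ∀ i, u i = s i • v (p i)) (hu : Ok u) : Ok v := by
  obtain ⟨mu, hmu⟩ := hu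
  refine ⟨fun i => mu (p.symm i), ?_⟩
  have e1 : S1 u = S1 v := by
    unfold S1
    rw [← Equiv.sum_comp p (fun a => ∑ b, ∑ c, |D3 (v a) (v b) (v c)|)]
    refine Finset.sum_congr rfl fun a _ => ?_
    rw [← Equiv.sum_comp p (fun b => ∑ c, |D3 (v (p a)) (v b) (v c)|)]
    refine Finset.sum_congr rfl fun b _ => ?_
    rw [← Equiv.sum_comp p (fun c => |D3 (v (p a)) (v (p b)) (v c)|)]
    refine Finset.sum_congr rfl fun c _ => ?_
    rw [h, h, h, D3_smul, abs_mul, abs_mul, abs_mul, hs, hs, hs]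
    ring
  have hsq : ∀ i, s i ^ 2 = 1 := fun i => by rw [← sq_abs, hs]; ring
  have e2 : S2 mu u = S2 (fun i => mu (p.symm i)) v := by
    unfold S2
    rw [← Equiv.sum_comp p (fun a => ∑ b, ∑ c, W (fun i => mu (p.symm i)) a b c *
      D3 (v a) (v b) (v c) ^ 2)]
    refine Finset.sum_congr rfl fun a _ => ?_
    rw [← Equiv.sum_comp p (fun b => ∑ c, W (fun i => mu (p.symm i)) (p a) b c *
      D3 (v (p a)) (v b) (v c) ^ 2)]
    refine Finset.sum_congr rfl fun b _ => ?_
    rw [← Equiv.sum_comp p (fun c => W (fun i => mu (p.symm i)) (p a) (p b) c *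
      D3 (v (p a)) (v (p b)) (v c) ^ 2)]
    refine Finset.sum_congr rfl fun c _ => ?_
    rw [h, h, h, D3_smul]
    have e3 : W mu a b c = W (fun i => mu (p.symm i)) (p a) (p b) (p c) := by
      unfold W
      simp only [Equiv.symm_apply_apply]
      rw [← Equiv.sum_comp p (fun i => ((mu (p.symm i) : ℕ) : ℝ))]
      simp only [Equiv.symm_apply_apply]
    rw [e3]
    have : (s a * s b * s c * D3 (v (p a)) (v (p b)) (v (p c))) ^ 2 =
        s a ^ 2 * s b ^ 2 * s c ^ 2 * D3 (v (p a)) (v (p b)) (v (p c)) ^ 2 := by ring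
    rw [this, hsq, hsq, hsq]
    ring
  rw [← e1, ← e2]
  exact hmu

/-- the inequality for vectors in normal form -/
theorem Ok_NG (v : Fin 7 → V) (hv : NG (ext v)) : Ok v := by
  obtain ⟨d, code, h1, h2⟩ := good (ext v) hv
  obtain ⟨c, hc, h3, h4, h5⟩ := leaf_sound (ext v) d code h2 h1
  obtain ⟨mu, hmu, h6⟩ := cls_ineq _ hc h5
  -- the permutation
  have hinj : Function.Injective (fun i : Fin 7 => (⟨dg d i, h3 i i.2⟩ : Fin 7)) := by
    intro i j hij
    have hij' : dg d i = dg d j := by simpa using hij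
    rcases lt_trichotomy (i : ℕ) j with h | h | h
    · exact absurd hij' (h4 j j.2 i h)
    · exact Fin.ext h
    · exact absurd hij'.symm (h4 i i.2 j h)
  let p : Equiv.Perm (Fin 7) := Equiv.ofBijective _ (Finite.injective_iff_bijective.1 hinj)
  have hp : ∀ i : Fin 7, ((p i : Fin 7) : ℕ) = dg d i := fun i => rfl
  let u : Fin 7 → V := fun i => (bs (d.testBit (21 + (i : ℕ))) : ℝ) • v (p i)
  refine Ok_of v u p (fun i => (bs (d.testBit (21 + (i : ℕ))) : ℝ)) ?_ (fun i => rfl) ?_
  · intro i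
    cases d.testBit (21 + (i : ℕ)) <;> simp [bs]
  · have hu : ∀ n < 7, ext u n = rel (ext v) d n := by
      intro n hn
      have : ext u n = u ⟨n, hn⟩ := ext_val u ⟨n, hn⟩
      rw [this]
      show _ = (bs (d.testBit (21 + n)) : ℝ) • ext v (dg d n)
      have h7 : ext v (dg d n) = v ⟨dg d n, h3 n hn⟩ := ext_val v ⟨dg d n, h3 n hn⟩
      rw [h7]
      rfl
    have hpc : ∀ n ∈ Finset.range 35, pc (rel (ext v) d) n = pc (ext u) n := by
      intro n hn
      obtain ⟨k1, k2, k3, _⟩ := ix_trip n (Finset.mem_range.1 hn)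
      unfold pc
      rw [hu _ k3, hu _ (by omega), hu _ (by omega)]
    refine ⟨fun i => ⟨mu i, hmu i⟩, ?_⟩
    rw [S1_eq, S2_eq _ mu (fun i => rfl)]
    have ea : ∑ n ∈ Finset.range 35, |pc (rel (ext v) d) n| =
        ∑ n ∈ Finset.range 35, |pc (ext u) n| :=
      Finset.sum_congr rfl fun n hn => by rw [hpc n hn]
    have eb : ∑ n ∈ Finset.range 35, wt mu (trip n).1 (trip n).2.1 (trip n).2.2 *
        pc (rel (ext v) d) n ^ 2 = ∑ n ∈ Finset.range 35,
          wt mu (trip n).1 (trip n).2.1 (trip n).2.2 * pc (ext u) n ^ 2 :=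
      Finset.sum_congr rfl fun n hn => by rw [hpc n hn]
    rw [ea, eb] at h6
    nlinarith

end Q187.Cube
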