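import Pool.Agent.Q187.Cube.Frame
import Pool.Agent.H354R3.ZN.All

/-!
# The volume of the projection of the seven-dimensional cube
-/

set_option autoImplicit false

open MeasureTheory
open scoped Matrix Pointwise

namespace Q187.Cube

theorem emb_eq (A : Finset (Fin 7)) (h : A.card = 3) (f : Fin 3 → Fin 7) (hf : StrictMono f)
    (hA : ∀ i, f i ∈ A) (i : Fin 3) : A.orderEmbOfFin h i = f i := by
  have := Finset.orderEmbOfFin_unique h hA hf
  rw [this]

theorem DD_eq (z : Fin 7 → V) (A : Finset (Fin 7)) (h : A.card = 3) (f : Fin 3 → Fin 7)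
    (hf : StrictMono f) (hA : ∀ i, f i ∈ A) :
    H354ZN.DD (m := 2) z A = |D3 (z (f 0)) (z (f 1)) (z (f 2))| := by
  unfold H354ZN.DD
  rw [dif_pos h, Matrix.det_fin_three]
  simp only [Matrix.of_apply, emb_eq A h f hf hA]
  congr 1
  unfold D3
  ring

/-- the index set -/
def tset (n : ℕ) : Finset (Fin 7) :=
  {Fin.ofNat 7 (trip n).1, Fin.ofNat 7 (trip n).2.1, Fin.ofNat 7 (trip n).2.2}

theorem Ps_eq : Finset.powersetCard 3 (Finset.univ : Finset (Fin 7)) =
    (Finset.range 35).image tset := by decide +kernel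

theorem tset_inj : ∀ a < 35, ∀ b < 35, tset a = tset b → a = b := by decide +kernel

theorem tset_card : ∀ n < 35, (tset n).card = 3 := by decide +kernel

theorem Dt_eq (z : Fin 7 → V) : H354ZN.Dt (m := 2) z = S1 z / 6 := by
  unfold H354ZN.Dt H354ZN.Ps
  rw [show 2 + 1 = 3 from rfl, Ps_eq, Finset.sum_image (fun a ha b hb h => tset_inj a
    (by simpa using ha) b (by simpa using hb) h), S1_eq, mul_div_cancel_left₀ _ (by norm_num)]
  refine Finset.sum_congr rfl fun n hn => ?_
  have hn' := Finset.mem_range.1 hn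
  obtain ⟨k1, k2, k3, _⟩ := ix_trip n hn'
  rw [DD_eq z (tset n) (tset_card n hn')
    ![Fin.ofNat 7 (trip n).1, Fin.ofNat 7 (trip n).2.1, Fin.ofNat 7 (trip n).2.2] ?_ ?_]
  · rfl
  · rw [Fin.strictMono_iff_lt_succ]
    intro i
    fin_cases i
    · show Fin.ofNat 7 (trip n).1 < Fin.ofNat 7 (trip n).2.1
      rw [Fin.lt_def]
      simp only [Fin.ofNat]
      omega
    · show Fin.ofNat 7 (trip n).2.1 < Fin.ofNat 7 (trip n).2.2
      rw [Fin.lt_def]
      simp only [Fin.ofNat]
      omega
  · intro i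
    unfold tset
    fin_cases i <;> simp

/-- the zonotope `∑ [0, v_i]` -/
def Z0 (v : Fin 7 → V) : Set V :=
  {x | ∃ t : Fin 7 → ℝ, (∀ i, 0 ≤ t i ∧ t i ≤ 1) ∧ x = ∑ i, t i • v i}

theorem Z0_eq (v : Fin 7 → V) : Z0 v = (fun x => x + (-∑ i, (1 / 2 : ℝ) • v i)) ⁻¹'
    H354ZN.Zon (m := 2) (fun i => (1 / 2 : ℝ) • v i) := by
  ext x
  simp only [Z0, H354ZN.Zon, Set.mem_preimage, Set.mem_ofPred_eq]
  constructor
  · rintro ⟨t, ht, rfl⟩
    refine ⟨fun i => 2 * t i - 1, fun i => ?_, ?_⟩
    · rw [abs_le]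
      constructor <;> linarith [(ht i).1, (ht i).2]
    · rw [← Finset.sum_neg_distrib, ← Finset.sum_add_distrib]
      refine Finset.sum_congr rfl fun i _ => ?_
      rw [smul_smul, ← neg_smul, ← add_smul]
      congr 1
      ring
  · rintro ⟨t, ht, h⟩
    refine ⟨fun i => (t i + 1) / 2, fun i => ?_, ?_⟩
    · have := abs_le.1 (ht i)
      constructor <;> linarith [this.1, this.2]
    · have hx : x = ∑ i, t i • (1 / 2 : ℝ) • v i + ∑ i, (1 / 2 : ℝ) • v i := by
        rw [← h]; abel
      rw [hx, ← Finset.sum_add_distrib]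
      refine Finset.sum_congr rfl fun i _ => ?_
      rw [smul_smul, ← add_smul]
      congr 1
      ring

theorem Z0_compact (v : Fin 7 → V) : IsCompact (Z0 v) := by
  have h : Z0 v = (fun t : Fin 7 → ℝ => ∑ i, t i • v i) '' (Set.pi Set.univ fun _ => Set.Icc 0 1) := by
    ext x
    simp only [Z0, Set.mem_ofPred_eq, Set.mem_image, Set.mem_pi, Set.mem_univ, forall_true_left,
      Set.mem_Icc]
    constructor
    · rintro ⟨t, ht, rfl⟩
      exact ⟨t, ht, rfl⟩
    · rintro ⟨t, ht, rfl⟩
      exact ⟨t, ht, rfl⟩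
  rw [h]
  apply (isCompact_univ_pi fun _ => isCompact_Icc).image
  fun_prop

theorem S1_half (v : Fin 7 → V) : S1 (fun i => (1 / 2 : ℝ) • v i) = S1 v / 8 := by
  unfold S1
  rw [Finset.sum_div]
  refine Finset.sum_congr rfl fun a _ => ?_
  rw [Finset.sum_div]
  refine Finset.sum_congr rfl fun b _ => ?_
  rw [Finset.sum_div]
  refine Finset.sum_congr rfl fun c _ => ?_
  rw [D3_smul, abs_mul]
  rw [abs_of_pos (by norm_num : (0 : ℝ) < 1 / 2 * (1 / 2) * (1 / 2))]
  ring

theorem vol_Z0 (v : Fin 7 → V) (h : 0 < S1 v) : (volume (Z0 v)).toReal = S1 v / 6 := by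
  rw [Z0_eq, measure_preimage_add_right]
  have hD : H354ZN.Dt (m := 2) (fun i => (1 / 2 : ℝ) • v i) = S1 v / 48 := by
    rw [Dt_eq, S1_half]; ring
  have h1 := H354ZN.a_VOL 2 7 (fun i => (1 / 2 : ℝ) • v i) (by rw [hD]; positivity)
  have h2 := H354ZN.a_TILE 2 7 (fun i => (1 / 2 : ℝ) • v i)
  rw [hD] at h1 h2
  change (volume.real (H354ZN.Zon (m := 2) (fun i => (1 / 2 : ℝ) • v i))) = _
  norm_num at h1 h2 ⊢
  linarith

/-! ## subspaces -/

/-- `n`-dimensional Euclidean space -/
abbrev E (n : ℕ) := EuclideanSpace ℝ (Fin n)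

/-- the unit cube -/
def cube (n : ℕ) : Set (E n) := {x | ∀ i, 0 ≤ x i ∧ x i ≤ 1}

/-- Lebesgue measure inside the subspace `H`: the Haar measure for which the unit cube spanned by
an orthonormal basis of `H` has measure one -/
noncomputable def lebesgueOn {n : ℕ} (H : Submodule ℝ (E n)) : Measure H :=
  (stdOrthonormalBasis ℝ H).toBasis.addHaar

/-- the volume of the orthogonal projection of the cube onto `H` -/
noncomputable def F {n : ℕ} (H : Submodule ℝ (E n)) : ℝ :=
  (lebesgueOn H (H.orthogonalProjectionOnto '' cube n)).toReal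

theorem cube_compact (n : ℕ) : IsCompact (cube n) := by
  have h : cube n = (WithLp.toLp 2) '' (Set.pi Set.univ fun _ : Fin n => Set.Icc (0 : ℝ) 1) := by
    ext x
    simp only [cube, Set.mem_ofPred_eq, Set.mem_image, Set.mem_pi, Set.mem_univ, forall_true_left,
      Set.mem_Icc]
    constructor
    · intro hx
      exact ⟨x.ofLp, hx, rfl⟩
    · rintro ⟨t, ht, rfl⟩
      exact ht
  rw [h]
  exact (isCompact_univ_pi fun _ => isCompact_Icc).image (PiLp.continuous_toLp 2 _)

/-- the coordinates of the projections of the standard basis vectors -/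
noncomputable def co {H : Submodule ℝ (E 7)} (b : OrthonormalBasis (Fin 3) ℝ H) (i : Fin 7) : V :=
  fun k => ((b k : H) : E 7) i

theorem repr_proj {H : Submodule ℝ (E 7)} (b : OrthonormalBasis (Fin 3) ℝ H) (x : E 7) :
    (b.repr (H.orthogonalProjectionOnto x)).ofLp = ∑ i, x i • co b i := by
  ext k
  rw [b.repr_apply_apply, Finset.sum_apply]
  have h1 : inner ℝ (b k) (H.orthogonalProjectionOnto x) = inner ℝ ((b k : H) : E 7) x := by
    rw [Submodule.inner_orthogonalProjectionOnto_eq_of_mem_left]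
  rw [h1, PiLp.inner_apply]
  refine Finset.sum_congr rfl fun i _ => ?_
  simp [co, mul_comm]

theorem co_fr {H : Submodule ℝ (E 7)} (b : OrthonormalBasis (Fin 3) ℝ H) : Fr (co b) := by
  intro k l
  have h := (orthonormal_iff_ite.1 b.orthonormal) k l
  rw [← h, Submodule.coe_inner, PiLp.inner_apply]
  refine Finset.sum_congr rfl fun i _ => ?_
  simp [co, mul_comm]

theorem S1_pos {v : Fin 7 → V} (h : Fr v) : 0 < S1 v := by
  have h0 : 0 ≤ S1 v := by unfold S1; positivity
  rcases h0.lt_or_eq with h1 | h1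
  · exact h1
  · exfalso
    have s1 : ∑ a, ∑ b, ∑ c, D3 (v a) (v b) (v c) ^ 2 = 6 := by
      rw [Finset.sum_congr rfl fun a _ => fr_two h (v a), ← Finset.mul_sum, fr_tr h]
      norm_num
    have hz : ∀ a b c, D3 (v a) (v b) (v c) = 0 := by
      intro a b c
      unfold S1 at h1
      have h2 := (Finset.sum_eq_zero_iff_of_nonneg (fun a _ => by positivity)).1 h1.symm a
        (Finset.mem_univ _)
      have h3 := (Finset.sum_eq_zero_iff_of_nonneg (fun a _ => by positivity)).1 h2 b
        (Finset.mem_univ _)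
      have h4 := (Finset.sum_eq_zero_iff_of_nonneg (fun a _ => by positivity)).1 h3 c
        (Finset.mem_univ _)
      exact abs_eq_zero.1 h4
    simp only [hz] at s1
    norm_num at s1

theorem F_eq {H : Submodule ℝ (E 7)} (b : OrthonormalBasis (Fin 3) ℝ H) :
    F H = S1 (co b) / 6 := by
  rw [← vol_Z0 (co b) (S1_pos (co_fr b))]
  unfold F
  congr 1
  have hS : MeasurableSet (H.orthogonalProjectionOnto '' cube 7) :=
    ((cube_compact 7).image H.orthogonalProjectionOnto.continuous).measurableSet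
  have h1 := b.measurePreserving_repr_symm.measure_preimage hS.nullMeasurableSet
  have h2 := (PiLp.volume_preserving_ofLp (Fin 3)).measure_preimage
    (Z0_compact (co b)).measurableSet.nullMeasurableSet
  have h3 : (b.repr.symm : E 3 → H) ⁻¹' (H.orthogonalProjectionOnto '' cube 7) =
      (@WithLp.ofLp 2 (Fin 3 → ℝ)) ⁻¹' (Z0 (co b)) := by
    ext y
    simp only [Set.mem_preimage, Set.mem_image, Z0, Set.mem_ofPred_eq]
    constructor
    · rintro ⟨x, hx, h⟩
      refine ⟨x.ofLp, hx, ?_⟩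
      have : y = b.repr (H.orthogonalProjectionOnto x) := by rw [h]; simp
      rw [this, repr_proj]
    · rintro ⟨t, ht, h⟩
      refine ⟨WithLp.toLp 2 t, ht, ?_⟩
      apply b.repr.injective
      rw [LinearIsometryEquiv.apply_symm_apply]
      apply WithLp.ofLp_injective
      rw [repr_proj, h]
  rw [← h2, ← h3, h1]
  rfl

end Q187.Cube
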